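import Mathlib

set_option autoImplicit false

namespace Pool.Agent.H37.CG

/-- The poset `Q^d_n`: points of `ℕ^d` with coordinate sum at most `n`, ordered componentwise. -/
abbrev Q (d n : ℕ) : Type := {x : Fin d → ℕ // ∑ j, x j ≤ n}

/-- Maker's moves (first, third, fifth, ... claimed element) in temporal order. -/
def makerMoves {P : Type} : List P → List P
  | [] => []
  | [a] => [a]
  | a :: _ :: l => a :: makerMoves l

/-- A strategy of Maker: given the list of elements claimed so far it names the next element;
it must name an unclaimed element as long as there is one. -/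
def Legal {P : Type} (σ : List P → P) : Prop := ∀ h : List P, (∃ p, p ∉ h) → σ h ∉ h

/-- `w` is a complete play (all elements of the poset, listed in the order in which they are
claimed, Maker moving first) in which Maker follows `σ`. -/
def IsPlay {P : Type} (σ : List P → P) (w : List P) : Prop :=
  w.Nodup ∧ (∀ p, p ∈ w) ∧ ∀ i, 2 * i < w.length → w[2 * i]? = some (σ (w.take (2 * i)))

/-- Maker's score in the sequence game is at least `k`: Maker claimed elements
`y_1 < y_2 < ... < y_k` in this temporal order. -/
def SeqScoreGE {P : Type} [PartialOrder P] (w : List P) (k : ℕ) : Prop :=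
  ∃ c : List P, c.Sublist (makerMoves w) ∧ c.Pairwise (· < ·) ∧ c.length = k

/-- Maker can guarantee the score `k` in the sequence game on `P`. -/
def SeqGuarantee (P : Type) [PartialOrder P] (k : ℕ) : Prop :=
  ∃ σ : List P → P, Legal σ ∧ ∀ w, IsPlay σ w → SeqScoreGE w k

/-- The largest score that Maker can guarantee in the sequence game on `P`. -/
noncomputable def gseq (P : Type) [PartialOrder P] : ℕ := sSup {k | SeqGuarantee P k}

end Pool.Agent.H37.CG
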