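import Mathlib
import Pool.Agent.H37.CG.Game

set_option autoImplicit false

namespace Pool.Agent.H37.CG

variable {P : Type}

theorem makerMoves_append (h l : List P) (hh : Even h.length) :
    makerMoves (h ++ l) = makerMoves h ++ makerMoves l := by
  induction h using makerMoves.induct with
  | case1 => simp [makerMoves]
  | case2 a => simp at hh
  | case3 a b h ih =>
    have : Even h.length := by
      simp only [List.length_cons] at hh
      obtain ⟨k, hk⟩ := hh
      exact ⟨k - 1, by omega⟩
    simp only [List.cons_append, makerMoves]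
    rw [ih this]

theorem makerMoves_sub (h : List P) : (makerMoves h).Sublist h := by
  induction h using makerMoves.induct with
  | case1 => simp [makerMoves]
  | case2 a => simp [makerMoves]
  | case3 a b h ih =>
    simp only [makerMoves]
    exact List.Sublist.cons_cons a (List.Sublist.cons b ih)

theorem makerMoves_two (h : List P) (m b : P) (hh : Even h.length) :
    makerMoves (h ++ [m, b]) = makerMoves h ++ [m] := by
  rw [makerMoves_append h _ hh]
  rfl

theorem makerMoves_one (h : List P) (m : P) (hh : Even h.length) :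
    makerMoves (h ++ [m]) = makerMoves h ++ [m] := by
  rw [makerMoves_append h _ hh]
  rfl

/-- Consistency of a history with a strategy. -/
def Cons (σ : List P → P) (h : List P) : Prop :=
  ∀ i, 2 * i < h.length → h[2 * i]? = some (σ (h.take (2 * i)))

theorem Cons.nil (σ : List P → P) : Cons σ [] := by
  intro i hi
  simp at hi

theorem Cons.snoc {σ : List P → P} {h : List P} (hc : Cons σ h) (hh : Even h.length)
    (l : List P) (hl : l.length ≤ 1) : Cons σ (h ++ σ h :: l) := by
  intro i hi
  obtain ⟨k, hk⟩ := hh
  simp only [List.length_append, List.length_cons] at hi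
  by_cases h1 : 2 * i < h.length
  · rw [List.getElem?_append_left h1, hc i h1, List.take_append_of_le_length h1.le]
  · have h2 : 2 * i = h.length := by omega
    rw [h2, List.getElem?_append_right le_rfl]
    simp

variable [PartialOrder P]

/-- A temporal chain of `s` elements ending at `t`. -/
def Tc (M : List P) (t : P) (s : ℕ) : Prop :=
  ∃ c : List P, (c ++ [t]).Sublist M ∧ (c ++ [t]).Pairwise (· < ·) ∧ c.length + 1 = s

theorem Tc.mem {M : List P} {t : P} {s : ℕ} (h : Tc M t s) : t ∈ M := by
  obtain ⟨c, h1, _, _⟩ := h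
  exact h1.subset (by simp)

theorem Tc.le {M : List P} {t : P} {s : ℕ} (h : Tc M t s) : s ≤ M.length := by
  obtain ⟨c, h1, _, h3⟩ := h
  have := h1.length_le
  simp at this
  omega

theorem Tc.append {M : List P} {m t : P} {s : ℕ} (h : Tc (M ++ [m]) t s) :
    Tc M t s ∨ (t = m ∧ (s = 1 ∨ ∃ x s', s = s' + 1 ∧ Tc M x s' ∧ x < m)) := by
  obtain ⟨c, h1, h2, h3⟩ := h
  rw [List.sublist_append_iff] at h1
  obtain ⟨l1, l2, h4, h5, h6⟩ := h1
  rcases List.sublist_singleton.1 h6 with rfl | rfl
  · left
    rw [List.append_nil] at h4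
    rw [← h4] at h5
    exact ⟨c, h5, h2, h3⟩
  · right
    obtain ⟨h7, h8⟩ := List.append_inj' h4 rfl
    have htm : t = m := by simpa using h8
    refine ⟨htm, ?_⟩
    subst htm h7
    rcases List.eq_nil_or_concat c with rfl | ⟨c', x, rfl⟩
    · left
      simpa using h3.symm
    · right
      rw [List.concat_eq_append] at h2 h3 h5
      refine ⟨x, c'.length + 1, ?_, ⟨c', h5, ?_, rfl⟩, ?_⟩
      · rw [← h3]; simp
      · exact (List.pairwise_append.1 h2).1
      · exact (List.pairwise_append.1 h2).2.2 x (by simp) t (by simp)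

theorem Tc.self {M : List P} {m : P} : Tc (M ++ [m]) m 1 := ⟨[], by simp, by simp, rfl⟩

theorem seqScore_Tc {w : List P} {k : ℕ} (h : SeqScoreGE w (k + 1)) :
    ∃ t, Tc (makerMoves w) t (k + 1) := by
  obtain ⟨c, h1, h2, h3⟩ := h
  rcases List.eq_nil_or_concat c with rfl | ⟨c', x, rfl⟩
  · simp at h3
  · rw [List.concat_eq_append] at h1 h2 h3
    exact ⟨x, c', h1, h2, by simpa using h3⟩

end Pool.Agent.H37.CG
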