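import Mathlib

set_option autoImplicit false

namespace Pool.Agent.H37.CG

abbrev V3 : Type := Fin 3 → ℕ

/-- The unit vectors. -/
def e (j : Fin 3) : V3 := Pi.single j 1

/-- A walker has arrived at `y`, the blocker is to move, and the elements of `B` are blocked.
`Lose r y B` says that the blocker can stop the walker before `r` further upward unit steps. -/
def Lose : ℕ → V3 → Set V3 → Prop
  | 0, _, _ => False
  | r + 1, y, B => ∃ z, ∀ j, y + e j ∈ insert z B ∨ Lose r (y + e j) (insert z B)

theorem Lose.mono_set {r : ℕ} {y : V3} {B B' : Set V3} (h : Lose r y B) (hB : B ⊆ B') :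
    Lose r y B' := by
  induction r generalizing y B B' with
  | zero => exact h
  | succ r ih =>
    obtain ⟨z, hz⟩ := h
    have hsub : insert z B ⊆ insert z B' := Set.insert_subset_insert hB
    refine ⟨z, fun j => ?_⟩
    rcases hz j with h1 | h1
    · exact Or.inl (hsub h1)
    · exact Or.inr (ih h1 hsub)

theorem Lose.succ {r : ℕ} {y : V3} {B : Set V3} (h : Lose r y B) : Lose (r + 1) y B := by
  induction r generalizing y B with
  | zero => exact h.elim
  | succ r ih =>
    obtain ⟨z, hz⟩ := h
    exact ⟨z, fun j => (hz j).imp id ih⟩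

theorem Lose.mono {r r' : ℕ} {y : V3} {B : Set V3} (h : Lose r y B) (hr : r ≤ r') :
    Lose r' y B := by
  induction r' with
  | zero =>
    obtain rfl : r = 0 := by omega
    exact h
  | succ r' ih =>
    by_cases h1 : r ≤ r'
    · exact (ih h1).succ
    · obtain rfl : r = r' + 1 := by omega
      exact h

/-- Only blocked elements above `y` matter. -/
theorem Lose.agree {r : ℕ} {y : V3} {B B' : Set V3} (h : Lose r y B)
    (hB : ∀ u, y < u → u ∈ B → u ∈ B') : Lose r y B' := by
  induction r generalizing y B B' with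
  | zero => exact h
  | succ r ih =>
    obtain ⟨z, hz⟩ := h
    refine ⟨z, fun j => ?_⟩
    have hlt : y < y + e j := by
      refine lt_of_le_of_ne (fun i => by simp) ?_
      intro h0
      have := congrFun h0 j
      simp [e] at this
    rcases hz j with h1 | h1
    · left
      rcases h1 with h2 | h2
      · exact Or.inl h2
      · exact Or.inr (hB _ hlt h2)
    · right
      refine ih h1 ?_
      intro u hu h2
      rcases h2 with h3 | h3
      · exact Or.inl h3
      · exact Or.inr (hB _ (hlt.trans hu) h3)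

/-! ### The blocker's strategy tree -/

/-- A strategy tree of the blocker. -/
inductive Tr : Type
  | stop : Tr
  | node (a b c : ℕ) (t0 t1 t2 : Tr) : Tr

/-- Triples as vectors. -/
def vec (a b c : ℕ) : V3 := ![a, b, c]

theorem vec_e0 (a b c : ℕ) : vec (a + 1) b c = vec a b c + e 0 := by
  ext i; fin_cases i <;> simp [vec, e]

theorem vec_e1 (a b c : ℕ) : vec a (b + 1) c = vec a b c + e 1 := by
  ext i; fin_cases i <;> simp [vec, e]

theorem vec_e2 (a b c : ℕ) : vec a b (c + 1) = vec a b c + e 2 := by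
  ext i; fin_cases i <;> simp [vec, e]

def mem3 (a b c : ℕ) : List (ℕ × ℕ × ℕ) → Bool
  | [] => false
  | (x, y, z) :: l => (Nat.beq x a && Nat.beq y b && Nat.beq z c) || mem3 a b c l

theorem mem3_iff {a b c : ℕ} {l : List (ℕ × ℕ × ℕ)} : mem3 a b c l = true ↔ (a, b, c) ∈ l := by
  induction l with
  | nil => simp [mem3]
  | cons p l ih =>
    obtain ⟨x, y, z⟩ := p
    simp only [mem3, Bool.or_eq_true, Bool.and_eq_true, ih, List.mem_cons, Prod.mk.injEq]
    constructor
    · rintro (⟨⟨h1, h2⟩, h3⟩ | h)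
      · exact Or.inl ⟨(Nat.eq_of_beq_eq_true h1).symm, (Nat.eq_of_beq_eq_true h2).symm,
          (Nat.eq_of_beq_eq_true h3).symm⟩
      · exact Or.inr h
    · rintro (⟨h1, h2, h3⟩ | h)
      · subst h1 h2 h3
        left
        refine ⟨⟨?_, ?_⟩, ?_⟩ <;> exact Nat.beq_refl _
      · exact Or.inr h

/-- Checks a strategy tree. -/
def chk : Tr → ℕ → ℕ → ℕ → ℕ → List (ℕ × ℕ × ℕ) → Bool
  | Tr.stop, _, _, _, _, _ => false
  | Tr.node _ _ _ _ _ _, 0, _, _, _, _ => false
  | Tr.node a b c t0 t1 t2, r + 1, x, y, z, L =>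
    (mem3 (x + 1) y z ((a, b, c) :: L) || chk t0 r (x + 1) y z ((a, b, c) :: L)) &&
    (mem3 x (y + 1) z ((a, b, c) :: L) || chk t1 r x (y + 1) z ((a, b, c) :: L)) &&
    (mem3 x y (z + 1) ((a, b, c) :: L) || chk t2 r x y (z + 1) ((a, b, c) :: L))

theorem chk_sound {t : Tr} {r x y z : ℕ} {L : List (ℕ × ℕ × ℕ)} (h : chk t r x y z L = true)
    (p : V3) (B : Set V3) (hB : ∀ a b c, (a, b, c) ∈ L → p + vec a b c ∈ B) :
    Lose r (p + vec x y z) B := by
  induction t generalizing r x y z L B with
  | stop => simp [chk] at h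
  | node a b c t0 t1 t2 ih0 ih1 ih2 =>
    cases r with
    | zero => simp [chk] at h
    | succ r =>
      simp only [chk, Bool.and_eq_true, Bool.or_eq_true] at h
      obtain ⟨⟨h0, h1⟩, h2⟩ := h
      have hB' : ∀ a' b' c', (a', b', c') ∈ (a, b, c) :: L →
          p + vec a' b' c' ∈ insert (p + vec a b c) B := by
        intro a' b' c' hm
        rcases List.mem_cons.1 hm with h3 | h3
        · simp only [Prod.mk.injEq] at h3
          obtain ⟨rfl, rfl, rfl⟩ := h3
          exact Or.inl rfl
        · exact Or.inr (hB _ _ _ h3)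
      refine ⟨p + vec a b c, fun j => ?_⟩
      fin_cases j
      · show p + vec x y z + e 0 ∈ _ ∨ Lose r (p + vec x y z + e 0) _
        rw [add_assoc, ← vec_e0]
        rcases h0 with h3 | h3
        · exact Or.inl (hB' _ _ _ (mem3_iff.1 h3))
        · exact Or.inr (ih0 h3 _ hB')
      · show p + vec x y z + e 1 ∈ _ ∨ Lose r (p + vec x y z + e 1) _
        rw [add_assoc, ← vec_e1]
        rcases h1 with h3 | h3
        · exact Or.inl (hB' _ _ _ (mem3_iff.1 h3))
        · exact Or.inr (ih1 h3 _ hB')
      · show p + vec x y z + e 2 ∈ _ ∨ Lose r (p + vec x y z + e 2) _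
        rw [add_assoc, ← vec_e2]
        rcases h2 with h3 | h3
        · exact Or.inl (hB' _ _ _ (mem3_iff.1 h3))
        · exact Or.inr (ih2 h3 _ hB')

end Pool.Agent.H37.CG
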