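import Mathlib
import Pool.Agent.H37.CG.Lose

set_option autoImplicit false
set_option maxRecDepth 100000

namespace Pool.Agent.H37.CG

open Tr in
/-- The blocker's strategy stopping the walker within seven steps. -/
def tree7 : Tr :=
  (node 2 2 2 (node 3 1 2 (node 4 2 1 (node 5 1 1 (node 6 0 1 (node 6 1 0 (node 7 0 0 stop stop
    stop) (node 5 2 0 stop stop stop) (node 5 0 2 stop stop stop)) (node 5 2 0 (node 6 1 0 stop
    stop stop) (node 4 3 0 stop stop stop) (node 4 1 2 stop stop stop)) (node 4 0 2 (node 5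
    0 2 stop stop stop) (node 4 1 2 stop stop stop) stop)) (node 3 2 0 (node 5 2 0 (node 6 1
    0 stop stop stop) (node 4 3 0 stop stop stop) (node 4 1 2 stop stop stop)) stop (node 3
    2 1 (node 4 1 2 stop stop stop) stop stop)) (node 4 0 2 (node 5 0 1 stop (node 4 1 2 stop
    stop stop) stop) (node 3 2 1 (node 4 1 2 stop stop stop) stop stop) (node 3 0 3 stop stop
    stop))) (node 3 3 1 (node 4 1 0 stop (node 4 3 0 (node 5 2 0 stop stop stop) (node 3 4 0
    stop stop stop) (node 3 2 2 stop stop stop)) (node 4 1 1 stop (node 3 2 2 stop stop stop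
) stop)) (node 2 3 0 (node 4 3 0 (node 5 2 0 stop stop stop) (node 3 4 0 stop stop stop) (node
    3 2 2 stop stop stop)) stop (node 2 3 1 (node 3 2 2 stop stop stop) stop stop)) (node 2
    1 1 (node 4 1 1 stop (node 3 2 2 stop stop stop) stop) (node 2 3 1 (node 3 2 2 stop stop
    stop) stop stop) (node 2 1 3 stop stop stop))) (node 4 0 2 (node 4 1 1 (node 5 0 1 stop
    stop stop) (node 3 2 1 stop stop stop) (node 3 0 3 stop stop stop)) (node 3 2 1 (node 4
    1 1 stop stop stop) (node 2 3 1 stop stop stop) (node 2 1 3 stop stop stop)) (node 2 0 3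
    (node 3 0 3 stop stop stop) (node 2 1 3 stop stop stop) stop))) (node 3 3 1 (node 4 2 1
    (node 4 1 0 stop (node 4 3 0 (node 5 2 0 stop stop stop) (node 3 4 0 stop stop stop) (node
    3 2 2 stop stop stop)) (node 4 1 1 stop (node 3 2 2 stop stop stop) stop)) (node 2 3 0 (
    node 4 3 0 (node 5 2 0 stop stop stop) (node 3 4 0 stop stop stop) (node 3 2 2 stop stop
    stop)) stop (node 2 3 1 (node 3 2 2 stop stop stop) stop stop)) (node 2 1 1 (node 4 1 1
    stop (node 3 2 2 stop stop stop) stop) (node 2 3 1 (node 3 2 2 stop stop stop) stop stop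
) (node 2 1 3 stop stop stop))) (node 2 4 1 (node 3 2 0 stop (node 3 4 0 (node 4 3 0 stop stop
    stop) (node 2 5 0 stop stop stop) (node 2 3 2 stop stop stop)) (node 3 2 1 stop (node 2
    3 2 stop stop stop) stop)) (node 1 5 1 (node 3 4 0 (node 4 3 0 stop stop stop) (node 2 5
    0 stop stop stop) (node 2 3 2 stop stop stop)) (node 2 5 0 (node 3 4 0 stop stop stop) (
    node 1 6 0 stop stop stop) (node 1 4 2 stop stop stop)) (node 1 3 2 (node 2 3 2 stop stop
    stop) (node 1 4 2 stop stop stop) stop)) (node 1 3 2 (node 3 2 1 stop (node 2 3 2 stop stop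
    stop) stop) (node 1 4 1 (node 2 3 2 stop stop stop) stop stop) (node 1 2 3 stop stop stop
))) (node 1 3 2 (node 3 2 1 (node 4 1 1 stop stop stop) (node 2 3 1 stop stop stop) (node 2
    1 3 stop stop stop)) (node 2 3 1 (node 3 2 1 stop stop stop) (node 1 4 1 stop stop stop
) (node 1 2 3 stop stop stop)) (node 1 1 3 (node 2 1 3 stop stop stop) (node 1 2 3 stop stop
    stop) stop))) (node 1 0 2 (node 4 0 2 (node 4 1 1 (node 5 0 1 stop stop stop) (node 3 2
    1 stop stop stop) (node 3 0 3 stop stop stop)) (node 3 2 1 (node 4 1 1 stop stop stop) (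
    node 2 3 1 stop stop stop) (node 2 1 3 stop stop stop)) (node 2 0 3 (node 3 0 3 stop stop
    stop) (node 2 1 3 stop stop stop) stop)) (node 1 3 2 (node 3 2 1 (node 4 1 1 stop stop stop
) (node 2 3 1 stop stop stop) (node 2 1 3 stop stop stop)) (node 2 3 1 (node 3 2 1 stop stop
    stop) (node 1 4 1 stop stop stop) (node 1 2 3 stop stop stop)) (node 1 1 3 (node 2 1 3 stop
    stop stop) (node 1 2 3 stop stop stop) stop)) stop)) (node 1 3 2 (node 3 3 1 (node 4 2 1
    (node 5 1 1 (node 5 2 0 (node 6 1 0 stop stop stop) (node 4 3 0 stop stop stop) (node 4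
    1 2 stop stop stop)) (node 4 3 0 (node 5 2 0 stop stop stop) (node 3 4 0 stop stop stop
) (node 3 2 2 stop stop stop)) (node 3 1 2 (node 4 1 2 stop stop stop) (node 3 2 2 stop stop
    stop) stop)) (node 2 3 0 (node 4 3 0 (node 5 2 0 stop stop stop) (node 3 4 0 stop stop stop
) (node 3 2 2 stop stop stop)) stop (node 2 3 1 (node 3 2 2 stop stop stop) stop stop)) (node
    3 1 2 (node 4 1 1 stop (node 3 2 2 stop stop stop) stop) (node 2 3 1 (node 3 2 2 stop stop
    stop) stop stop) (node 2 1 3 stop stop stop))) (node 2 4 1 (node 3 2 0 stop (node 3 4 0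
    (node 4 3 0 stop stop stop) (node 2 5 0 stop stop stop) (node 2 3 2 stop stop stop)) (node
    3 2 1 stop (node 2 3 2 stop stop stop) stop)) (node 1 4 0 (node 3 4 0 (node 4 3 0 stop stop
    stop) (node 2 5 0 stop stop stop) (node 2 3 2 stop stop stop)) stop (node 1 4 1 (node 2
    3 2 stop stop stop) stop stop)) (node 1 2 1 (node 3 2 1 stop (node 2 3 2 stop stop stop
) stop) (node 1 4 1 (node 2 3 2 stop stop stop) stop stop) (node 1 2 3 stop stop stop))) (node
    3 1 2 (node 3 2 1 (node 4 1 1 stop stop stop) (node 2 3 1 stop stop stop) (node 2 1 3 stop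
    stop stop)) (node 2 3 1 (node 3 2 1 stop stop stop) (node 1 4 1 stop stop stop) (node 1
    2 3 stop stop stop)) (node 1 1 3 (node 2 1 3 stop stop stop) (node 1 2 3 stop stop stop
) stop))) (node 2 4 1 (node 3 3 1 (node 3 2 0 stop (node 3 4 0 (node 4 3 0 stop stop stop) (
    node 2 5 0 stop stop stop) (node 2 3 2 stop stop stop)) (node 3 2 1 stop (node 2 3 2 stop
    stop stop) stop)) (node 1 4 0 (node 3 4 0 (node 4 3 0 stop stop stop) (node 2 5 0 stop stop
    stop) (node 2 3 2 stop stop stop)) stop (node 1 4 1 (node 2 3 2 stop stop stop) stop stop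
)) (node 1 2 1 (node 3 2 1 stop (node 2 3 2 stop stop stop) stop) (node 1 4 1 (node 2 3 2 stop
    stop stop) stop stop) (node 1 2 3 stop stop stop))) (node 1 5 1 (node 2 3 0 stop (node 2
    5 0 (node 3 4 0 stop stop stop) (node 1 6 0 stop stop stop) (node 1 4 2 stop stop stop)) (
    node 2 3 1 stop (node 1 4 2 stop stop stop) stop)) (node 0 6 1 (node 2 5 0 (node 3 4 0 stop
    stop stop) (node 1 6 0 stop stop stop) (node 1 4 2 stop stop stop)) (node 1 6 0 (node 2
    5 0 stop stop stop) (node 0 7 0 stop stop stop) (node 0 5 2 stop stop stop)) (node 0 4 2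
    (node 1 4 2 stop stop stop) (node 0 5 2 stop stop stop) stop)) (node 0 4 2 (node 2 3 1 stop
    (node 1 4 2 stop stop stop) stop) (node 0 5 1 (node 1 4 2 stop stop stop) stop stop) (node
    0 3 3 stop stop stop))) (node 0 4 2 (node 2 3 1 (node 3 2 1 stop stop stop) (node 1 4 1
    stop stop stop) (node 1 2 3 stop stop stop)) (node 1 4 1 (node 2 3 1 stop stop stop) (node
    0 5 1 stop stop stop) (node 0 3 3 stop stop stop)) (node 0 2 3 (node 1 2 3 stop stop stop
) (node 0 3 3 stop stop stop) stop))) (node 0 1 2 (node 3 1 2 (node 3 2 1 (node 4 1 1 stop stop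
    stop) (node 2 3 1 stop stop stop) (node 2 1 3 stop stop stop)) (node 2 3 1 (node 3 2 1 stop
    stop stop) (node 1 4 1 stop stop stop) (node 1 2 3 stop stop stop)) (node 1 1 3 (node 2
    1 3 stop stop stop) (node 1 2 3 stop stop stop) stop)) (node 0 4 2 (node 2 3 1 (node 3 2
    1 stop stop stop) (node 1 4 1 stop stop stop) (node 1 2 3 stop stop stop)) (node 1 4 1 (
    node 2 3 1 stop stop stop) (node 0 5 1 stop stop stop) (node 0 3 3 stop stop stop)) (node
    0 2 3 (node 1 2 3 stop stop stop) (node 0 3 3 stop stop stop) stop)) stop)) (node 1 2 3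
    (node 3 1 3 (node 4 1 2 (node 5 1 1 (node 5 0 2 (node 6 0 1 stop stop stop) (node 4 2 1
    stop stop stop) (node 4 0 3 stop stop stop)) (node 3 2 1 (node 4 2 1 stop stop stop) stop
    (node 3 2 2 stop stop stop)) (node 4 0 3 (node 5 0 2 stop stop stop) (node 3 2 2 stop stop
    stop) (node 3 0 4 stop stop stop))) (node 3 2 1 (node 4 1 1 stop stop (node 3 2 2 stop stop
    stop)) (node 2 3 1 stop stop stop) (node 2 1 3 (node 3 2 2 stop stop stop) stop stop)) (
    node 2 0 3 (node 4 0 3 (node 5 0 2 stop stop stop) (node 3 2 2 stop stop stop) (node 3 0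
    4 stop stop stop)) (node 2 1 3 (node 3 2 2 stop stop stop) stop stop) stop)) (node 3 2 1
    (node 3 1 2 (node 4 1 1 stop stop stop) (node 2 3 1 stop stop stop) (node 2 1 3 stop stop
    stop)) (node 1 3 1 (node 2 3 1 stop stop stop) stop (node 1 3 2 stop stop stop)) (node 2
    1 3 (node 3 1 2 stop stop stop) (node 1 3 2 stop stop stop) (node 1 1 4 stop stop stop))) (
    node 2 1 4 (node 3 0 2 stop (node 3 1 2 stop stop (node 2 2 3 stop stop stop)) (node 3 0
    4 (node 4 0 3 stop stop stop) (node 2 2 3 stop stop stop) (node 2 0 5 stop stop stop))) (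
    node 1 1 2 (node 3 1 2 stop stop (node 2 2 3 stop stop stop)) (node 1 3 2 stop stop stop
) (node 1 1 4 (node 2 2 3 stop stop stop) stop stop)) (node 1 0 4 (node 3 0 4 (node 4 0 3 stop
    stop stop) (node 2 2 3 stop stop stop) (node 2 0 5 stop stop stop)) (node 1 1 4 (node 2
    2 3 stop stop stop) stop stop) stop))) (node 0 2 1 (node 3 2 1 (node 3 1 2 (node 4 1 1 stop
    stop stop) (node 2 3 1 stop stop stop) (node 2 1 3 stop stop stop)) (node 1 3 1 (node 2
    3 1 stop stop stop) stop (node 1 3 2 stop stop stop)) (node 2 1 3 (node 3 1 2 stop stop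
    stop) (node 1 3 2 stop stop stop) (node 1 1 4 stop stop stop))) stop (node 0 2 4 (node 2
    1 3 (node 3 1 2 stop stop stop) (node 1 3 2 stop stop stop) (node 1 1 4 stop stop stop)) (
    node 0 3 2 (node 1 3 2 stop stop stop) stop (node 0 3 3 stop stop stop)) (node 1 1 4 (node
    2 1 3 stop stop stop) (node 0 3 3 stop stop stop) (node 0 1 5 stop stop stop)))) (node 2
    1 4 (node 3 1 3 (node 3 0 2 stop (node 3 1 2 stop stop (node 2 2 3 stop stop stop)) (node
    3 0 4 (node 4 0 3 stop stop stop) (node 2 2 3 stop stop stop) (node 2 0 5 stop stop stop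
))) (node 1 1 2 (node 3 1 2 stop stop (node 2 2 3 stop stop stop)) (node 1 3 2 stop stop stop
) (node 1 1 4 (node 2 2 3 stop stop stop) stop stop)) (node 1 0 4 (node 3 0 4 (node 4 0 3 stop
    stop stop) (node 2 2 3 stop stop stop) (node 2 0 5 stop stop stop)) (node 1 1 4 (node 2
    2 3 stop stop stop) stop stop) stop)) (node 0 2 4 (node 2 1 3 (node 3 1 2 stop stop stop
) (node 1 3 2 stop stop stop) (node 1 1 4 stop stop stop)) (node 0 3 2 (node 1 3 2 stop stop
    stop) stop (node 0 3 3 stop stop stop)) (node 1 1 4 (node 2 1 3 stop stop stop) (node 0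
    3 3 stop stop stop) (node 0 1 5 stop stop stop))) (node 1 1 5 (node 2 0 3 stop (node 2 1
    3 stop stop (node 1 2 4 stop stop stop)) (node 2 0 5 (node 3 0 4 stop stop stop) (node 1
    2 4 stop stop stop) (node 1 0 6 stop stop stop))) (node 0 2 4 (node 2 1 3 stop stop (node
    1 2 4 stop stop stop)) (node 0 3 3 stop stop stop) (node 0 1 5 (node 1 2 4 stop stop stop
) stop stop)) (node 0 1 6 (node 2 0 5 (node 3 0 4 stop stop stop) (node 1 2 4 stop stop stop
) (node 1 0 6 stop stop stop)) (node 0 2 4 (node 1 2 4 stop stop stop) stop (node 0 2 5 stop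
    stop stop)) (node 1 0 6 (node 2 0 5 stop stop stop) (node 0 2 5 stop stop stop) (node 0
    0 7 stop stop stop)))))))

theorem chk7 : chk tree7 7 0 0 0 [] = true := by decide +kernel

theorem lose7 (p : V3) (B : Set V3) : Lose 7 p B := by
  have h := chk_sound chk7 p B (by simp)
  have h0 : p + vec 0 0 0 = p := by
    ext i; fin_cases i <;> simp [vec]
  rwa [h0] at h

end Pool.Agent.H37.CG
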