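import Mathlib
import Pool.Agent.H37.CG.Play
import Pool.Agent.H37.CG.Tree

set_option autoImplicit false

namespace Pool.Agent.H37.CG

/-- The level of a point. -/
def lev (x : V3) : ℕ := ∑ j, x j

theorem lev_add_e (x : V3) (j : Fin 3) : lev (x + e j) = lev x + 1 := by
  unfold lev e
  rw [Fin.sum_univ_three, Fin.sum_univ_three]
  fin_cases j <;> simp <;> ring

theorem lt_add_e (x : V3) (j : Fin 3) : x < x + e j := by
  refine lt_of_le_of_ne (fun i => by simp) ?_
  intro h0
  have := congrFun h0 j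
  simp [e] at this

theorem lev_lt {x y : V3} (h : x < y) : lev x < lev y := by
  obtain ⟨h1, i, h2⟩ := Pi.lt_def.1 h
  exact Finset.sum_lt_sum (fun j _ => h1 j) ⟨i, Finset.mem_univ _, h2⟩

theorem cover_of_lev {x y : V3} (h : x < y) (hl : lev y = lev x + 1) : ∃ j, y = x + e j := by
  obtain ⟨h1, i, h2⟩ := Pi.lt_def.1 h
  refine ⟨i, ?_⟩
  by_contra hne
  have h3 : x + e i ≤ y := by
    intro k
    by_cases hk : k = i
    · subst hk
      simp only [Pi.add_apply, e, Pi.single_eq_same]
      exact h2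
    · simp only [Pi.add_apply, e, Pi.single_eq_of_ne hk, add_zero]
      exact h1 k
  have h4 := lev_lt (lt_of_le_of_ne h3 (fun h => hne h.symm))
  rw [lev_add_e] at h4
  omega

variable {n : ℕ}

instance finQ (d n : ℕ) : Finite (Q d n) := by
  refine Finite.of_injective (fun x : Q d n => fun j : Fin d => (⟨x.1 j, ?_⟩ : Fin (n + 1))) ?_
  · have h1 := Finset.single_le_sum (f := fun j => x.1 j) (fun i _ => Nat.zero_le _)
      (Finset.mem_univ j)
    have h2 := x.2
    omega
  · intro x y h
    apply Subtype.ext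
    funext j
    have := congrFun h j
    simpa using this

/-- Blocked points: those above level `n` and the claimed ones. -/
def Blk (h : List (Q 3 n)) : Set V3 := {x | n < lev x ∨ ∃ p ∈ h, p.1 = x}

theorem Blk_mono {h h' : List (Q 3 n)} (hh : h ⊆ h') : Blk h ⊆ Blk h' := by
  rintro x (h1 | ⟨p, hp, rfl⟩)
  · exact Or.inl h1
  · exact Or.inr ⟨p, hh hp, rfl⟩

theorem notMem_Blk {h : List (Q 3 n)} {m : Q 3 n} (hm : m ∉ h) : m.1 ∉ Blk h := by
  rintro (h1 | ⟨p, hp, h2⟩)
  · have := m.2
    unfold lev at h1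
    omega
  · rw [Subtype.ext h2] at hp
    exact hm hp

/-- Every temporal chain falls behind and all its upward continuations are under control. -/
def Ok (M : List (Q 3 n)) (B : Set V3) : Prop :=
  ∀ t s, Tc M t s → 8 * s ≤ 7 * lev t.1 + 14 ∧
    ∀ j, t.1 + e j ∈ B ∨ Lose (7 * lev t.1 + 14 - 8 * s) (t.1 + e j) B

theorem Ok.mono {M : List (Q 3 n)} {B B' : Set V3} (h : Ok M B) (hB : B ⊆ B') : Ok M B' := by
  intro t s hts
  obtain ⟨h1, h2⟩ := h t s hts
  exact ⟨h1, fun j => (h2 j).imp (fun h3 => hB h3) (fun h3 => h3.mono_set hB)⟩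

theorem arrival {h : List (Q 3 n)} (hOk : Ok (makerMoves h) (Blk h)) {m : Q 3 n} (hm : m ∉ h)
    {s : ℕ} (hs : Tc (makerMoves h ++ [m]) m s) :
    Lose (7 * lev m.1 + 15 - 8 * s) m.1 (Blk h) := by
  rcases hs.append with h1 | ⟨_, h1 | ⟨x, s', rfl, h1, h2⟩⟩
  · exact absurd ((makerMoves_sub h).subset h1.mem) hm
  · subst h1
    exact (lose7 m.1 _).mono (by omega)
  · obtain ⟨h3, h4⟩ := hOk x s' h1
    have h5 : lev x.1 < lev m.1 := lev_lt h2
    by_cases h6 : lev m.1 = lev x.1 + 1
    · obtain ⟨j, hj⟩ := cover_of_lev h2 h6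
      rcases h4 j with h7 | h7
      · rw [← hj] at h7
        exact absurd h7 (notMem_Blk hm)
      · rw [← hj] at h7
        exact h7.mono (by omega)
    · exact (lose7 m.1 _).mono (by omega)

theorem reply {h : List (Q 3 n)} (hOk : Ok (makerMoves h) (Blk h)) {m : Q 3 n} (hm : m ∉ h) :
    ∃ z : V3, Ok (makerMoves h ++ [m]) (insert z (Blk h)) := by
  classical
  set N := (makerMoves h ++ [m]).length with hN
  have hex : ∃ s, Tc (makerMoves h ++ [m]) m s := ⟨1, Tc.self⟩
  obtain ⟨s0, hs0, hmax⟩ : ∃ s0, Tc (makerMoves h ++ [m]) m s0 ∧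
      ∀ s, Tc (makerMoves h ++ [m]) m s → s ≤ s0 := by
    refine ⟨Nat.findGreatest (fun s => Tc (makerMoves h ++ [m]) m s) N, ?_, ?_⟩
    · exact Nat.findGreatest_spec (P := fun s => Tc (makerMoves h ++ [m]) m s)
        (Tc.self.le) Tc.self
    · intro s hs
      exact Nat.le_findGreatest hs.le hs
  have harr := arrival hOk hm hs0
  obtain ⟨r, hr⟩ : ∃ r, 7 * lev m.1 + 15 - 8 * s0 = r + 1 := by
    cases h1 : 7 * lev m.1 + 15 - 8 * s0 with
    | zero => rw [h1] at harr; exact harr.elim
    | succ r => exact ⟨r, rfl⟩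
  rw [hr] at harr
  have hr1 : 8 * s0 ≤ 7 * lev m.1 + 14 := by omega
  have hr2 : r = 7 * lev m.1 + 14 - 8 * s0 := by omega
  clear hr
  obtain ⟨z, hz⟩ := harr
  refine ⟨z, ?_⟩
  intro t s hts
  rcases hts.append with h1 | ⟨rfl, _⟩
  · exact hOk.mono (Set.subset_insert _ _) t s h1
  · have hss := hmax s hts
    have h8 : 8 * s ≤ 8 * s0 := Nat.mul_le_mul_left 8 hss
    refine ⟨h8.trans hr1, fun j => ?_⟩
    rcases hz j with h2 | h2
    · exact Or.inl h2
    · exact Or.inr (h2.mono (by rw [hr2]; exact Nat.sub_le_sub_left h8 _))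

/-- Every temporal chain is short. -/
def Good (w : List (Q 3 n)) : Prop := ∀ t s, Tc (makerMoves w) t s → 8 * s ≤ 7 * lev t.1 + 14

theorem build (σ : List (Q 3 n) → Q 3 n) (hσ : Legal σ) : ∀ k : ℕ, ∀ h : List (Q 3 n),
    Nat.card (Q 3 n) - h.length ≤ k → Even h.length → h.Nodup → Cons σ h →
    Ok (makerMoves h) (Blk h) → ∃ w, IsPlay σ w ∧ Good w := by
  classical
  have : Fintype (Q 3 n) := Fintype.ofFinite _
  have hfull : ∀ h : List (Q 3 n), h.Nodup → Nat.card (Q 3 n) ≤ h.length → ∀ p, p ∈ h := by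
    intro h hnd hc p
    rw [Nat.card_eq_fintype_card, ← List.toFinset_card_of_nodup hnd] at hc
    have h1 := (Finset.card_eq_iff_eq_univ h.toFinset).1 (le_antisymm (Finset.card_le_univ _) hc)
    have h2 : p ∈ h.toFinset := by rw [h1]; exact Finset.mem_univ p
    exact List.mem_toFinset.1 h2
  intro k
  induction k with
  | zero =>
    intro h hk _ hnd hc hOk
    exact ⟨h, ⟨hnd, hfull h hnd (by omega), hc⟩, fun t s hts => (hOk t s hts).1⟩
  | succ k ih =>
    intro h hk hev hnd hc hOk
    by_cases hall : ∀ p, p ∈ h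
    · exact ⟨h, ⟨hnd, hall, hc⟩, fun t s hts => (hOk t s hts).1⟩
    · push Not at hall
      have hm : σ h ∉ h := hσ h hall
      obtain ⟨z, hz⟩ := reply hOk hm
      have hnd1 : (h ++ [σ h]).Nodup := by
        rw [List.nodup_append]
        refine ⟨hnd, by simp, ?_⟩
        intro a ha b hb
        rw [List.mem_singleton] at hb
        subst hb
        exact fun h => hm (h ▸ ha)
      by_cases hall1 : ∀ p, p ∈ h ++ [σ h]
      · refine ⟨h ++ [σ h], ⟨hnd1, hall1, hc.snoc hev [] (by simp)⟩, ?_⟩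
        intro t s hts
        rw [makerMoves_one h _ hev] at hts
        exact (hz t s hts).1
      · push Not at hall1
        obtain ⟨b, hb, hzb⟩ : ∃ b, b ∉ h ++ [σ h] ∧ z ∈ Blk (h ++ [σ h, b]) := by
          by_cases h1 : z ∈ Blk (h ++ [σ h])
          · obtain ⟨b, hb⟩ := hall1
            refine ⟨b, hb, Blk_mono ?_ h1⟩
            intro p hp
            simp only [List.mem_append, List.mem_cons, List.not_mem_nil, or_false] at hp ⊢
            tauto
          · have h2 : lev z ≤ n := by
              by_contra h3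
              exact h1 (Or.inl (by omega))
            refine ⟨⟨z, h2⟩, ?_, Or.inr ⟨⟨z, h2⟩, by simp, rfl⟩⟩
            intro h3
            exact h1 (Or.inr ⟨_, h3, rfl⟩)
        have hnd2 : (h ++ [σ h, b]).Nodup := by
          have : h ++ [σ h, b] = (h ++ [σ h]) ++ [b] := by simp
          rw [this, List.nodup_append]
          refine ⟨hnd1, by simp, ?_⟩
          intro a ha c hc'
          rw [List.mem_singleton] at hc'
          subst hc'
          exact fun h => hb (h ▸ ha)
        have hlen : (h ++ [σ h, b]).length = h.length + 2 := by simp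
        refine ih (h ++ [σ h, b]) (by rw [hlen]; omega) ?_ hnd2
          (hc.snoc hev [b] (by simp)) ?_
        · rw [hlen]
          exact hev.add (by decide)
        · rw [makerMoves_two h _ _ hev]
          refine hz.mono ?_
          refine Set.insert_subset hzb (Blk_mono ?_)
          intro p hp
          exact List.mem_append_left _ hp

theorem upper (k : ℕ) (h : SeqGuarantee (Q 3 n) k) : 8 * k ≤ 7 * n + 14 := by
  obtain ⟨σ, hσ, hw⟩ := h
  obtain ⟨w, hplay, hgood⟩ := build σ hσ (Nat.card (Q 3 n)) [] (by simp) (by simp) (by simp)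
    (Cons.nil σ) (by
      intro t s hts
      have := hts.mem
      simp [makerMoves] at this)
  cases k with
  | zero => omega
  | succ k =>
    obtain ⟨t, ht⟩ := seqScore_Tc (hw w hplay)
    have h1 := hgood t _ ht
    have h2 : lev t.1 ≤ n := t.2
    omega

end Pool.Agent.H37.CG
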