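import Mathlib

/-! Class group part of MP_5c3080_gt, (D6): the reduced group K_0 of a Dedekind domain, as an
additive invariant of all finitely generated modules. -/

namespace Pool.Agent.H37.CG

universe u v w x

section stable

variable (R : Type u) [CommRing R]

/-- Two modules are stably isomorphic. -/
def SEq (M : Type v) (N : Type w) [AddCommGroup M] [Module R M] [AddCommGroup N] [Module R N] :
    Prop :=
  ∃ a b : ℕ, Nonempty ((M × (Fin a → R)) ≃ₗ[R] (N × (Fin b → R)))

variable {R}
variable {M : Type v} [AddCommGroup M] [Module R M] {N : Type w} [AddCommGroup N] [Module R N]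

/-- Free modules add up. -/
noncomputable def finAdd (a b : ℕ) : ((Fin a → R) × (Fin b → R)) ≃ₗ[R] (Fin (a + b) → R) :=
  (LinearEquiv.sumArrowLequivProdArrow (Fin a) (Fin b) R R).symm ≪≫ₗ
    LinearEquiv.funCongrLeft R R finSumFinEquiv.symm

theorem SEq.of_free {F : Type x} {G : Type*} [AddCommGroup F] [Module R F] [AddCommGroup G]
    [Module R G] [Module.Finite R F] [Module.Free R F] [Module.Finite R G] [Module.Free R G]
    (e : (M × F) ≃ₗ[R] (N × G)) : SEq R M N := by
  rcases subsingleton_or_nontrivial R with hR | hR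
  · have : Subsingleton M := Module.subsingleton R M
    have : Subsingleton N := Module.subsingleton R N
    exact ⟨0, 0, ⟨(LinearEquiv.ofSubsingleton M N).prodCongr (LinearEquiv.refl R _)⟩⟩
  · refine ⟨Module.finrank R F, Module.finrank R G, ⟨?_⟩⟩
    exact ((LinearEquiv.refl R M).prodCongr (Module.finBasis R F).equivFun.symm) ≪≫ₗ e ≪≫ₗ
      ((LinearEquiv.refl R N).prodCongr (Module.finBasis R G).equivFun)

theorem SEq.of_equiv (e : M ≃ₗ[R] N) : SEq R M N :=
  ⟨0, 0, ⟨e.prodCongr (LinearEquiv.refl R _)⟩⟩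

theorem SEq.refl (M : Type v) [AddCommGroup M] [Module R M] : SEq R M M :=
  SEq.of_equiv (LinearEquiv.refl R M)

theorem SEq.symm (h : SEq R M N) : SEq R N M := by
  obtain ⟨a, b, ⟨e⟩⟩ := h
  exact ⟨b, a, ⟨e.symm⟩⟩

theorem SEq.trans {L : Type x} [AddCommGroup L] [Module R L] (h : SEq R M N) (h' : SEq R N L) :
    SEq R M L := by
  obtain ⟨a, b, ⟨e⟩⟩ := h
  obtain ⟨c, d, ⟨f⟩⟩ := h'
  refine SEq.of_free (F := (Fin a → R) × (Fin c → R)) (G := (Fin d → R) × (Fin b → R)) ?_
  exact (LinearEquiv.prodAssoc R M (Fin a → R) (Fin c → R)).symm ≪≫ₗ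
    (e.prodCongr (LinearEquiv.refl R _)) ≪≫ₗ
    (LinearEquiv.prodAssoc R N (Fin b → R) (Fin c → R)) ≪≫ₗ
    ((LinearEquiv.refl R N).prodCongr (LinearEquiv.prodComm R _ _)) ≪≫ₗ
    (LinearEquiv.prodAssoc R N (Fin c → R) (Fin b → R)).symm ≪≫ₗ
    (f.prodCongr (LinearEquiv.refl R _)) ≪≫ₗ
    (LinearEquiv.prodAssoc R L (Fin d → R) (Fin b → R))

theorem SEq.prod {M' : Type*} [AddCommGroup M'] [Module R M'] {N' : Type*} [AddCommGroup N']
    [Module R N'] (h : SEq R M N) (h' : SEq R M' N') : SEq R (M × M') (N × N') := by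
  obtain ⟨a, b, ⟨e⟩⟩ := h
  obtain ⟨c, d, ⟨f⟩⟩ := h'
  refine SEq.of_free (F := (Fin a → R) × (Fin c → R)) (G := (Fin b → R) × (Fin d → R)) ?_
  exact (LinearEquiv.prodProdProdComm R M M' (Fin a → R) (Fin c → R)) ≪≫ₗ (e.prodCongr f) ≪≫ₗ
    (LinearEquiv.prodProdProdComm R N (Fin b → R) N' (Fin d → R))

/-- A surjection onto a projective module splits. -/
theorem exists_split {A B C : Type*} [AddCommGroup A] [Module R A] [AddCommGroup B] [Module R B]
    [AddCommGroup C] [Module R C] [Module.Projective R C] (j : A →ₗ[R] B) (g : B →ₗ[R] C)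
    (hj : Function.Injective j) (hex : LinearMap.range j = LinearMap.ker g)
    (hg : Function.Surjective g) : Nonempty ((A × C) ≃ₗ[R] B) := by
  obtain ⟨f, hf⟩ := Module.projective_lifting_property g LinearMap.id hg
  exact ⟨lequivProdOfRightSplitExact hj hex hf⟩

/-- Schanuel's lemma. -/
theorem schanuel {F G : Type*} [AddCommGroup F] [Module R F] [AddCommGroup G] [Module R G]
    [Module.Projective R F] [Module.Projective R G] (p : F →ₗ[R] M) (q : G →ₗ[R] N)
    (e : M ≃ₗ[R] N) (hp : Function.Surjective p) (hq : Function.Surjective q) :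
    Nonempty ((LinearMap.ker p × G) ≃ₗ[R] (LinearMap.ker q × F)) := by
  let h : (F × G) →ₗ[R] N :=
    (e.toLinearMap ∘ₗ p ∘ₗ LinearMap.fst R F G) - (q ∘ₗ LinearMap.snd R F G)
  let P := LinearMap.ker h
  have hP : ∀ x : F × G, x ∈ P ↔ e (p x.1) = q x.2 := by
    intro x
    simp only [P, LinearMap.mem_ker, h]
    rw [LinearMap.sub_apply, sub_eq_zero]
    rfl
  let g1 : P →ₗ[R] G := LinearMap.snd R F G ∘ₗ P.subtype
  let g2 : P →ₗ[R] F := LinearMap.fst R F G ∘ₗ P.subtype
  let j1 : LinearMap.ker p →ₗ[R] P := LinearMap.codRestrict P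
    (LinearMap.inl R F G ∘ₗ (LinearMap.ker p).subtype) (fun c => by
      rw [hP]
      have : p (c : F) = 0 := c.2
      simp [this])
  let j2 : LinearMap.ker q →ₗ[R] P := LinearMap.codRestrict P
    (LinearMap.inr R F G ∘ₗ (LinearMap.ker q).subtype) (fun c => by
      rw [hP]
      have : q (c : G) = 0 := c.2
      simp [this])
  have s1 : Function.Surjective g1 := by
    intro y
    obtain ⟨z, hz⟩ := hp (e.symm (q y))
    exact ⟨⟨(z, y), (hP _).mpr (by simp [hz])⟩, rfl⟩
  have s2 : Function.Surjective g2 := by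
    intro y
    obtain ⟨z, hz⟩ := hq (e (p y))
    exact ⟨⟨(y, z), (hP _).mpr (by simp [hz])⟩, rfl⟩
  have i1 : Function.Injective j1 := by
    intro a b hab
    have := congrArg (fun t : P => t.1.1) hab
    exact Subtype.ext this
  have i2 : Function.Injective j2 := by
    intro a b hab
    have := congrArg (fun t : P => t.1.2) hab
    exact Subtype.ext this
  have x1 : LinearMap.range j1 = LinearMap.ker g1 := by
    ext t
    rw [LinearMap.mem_range, LinearMap.mem_ker]
    constructor
    · rintro ⟨y, rfl⟩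
      rfl
    · intro ht
      have ht' : t.1.2 = 0 := ht
      have h2 := (hP t.1).mp t.2
      rw [ht', map_zero] at h2
      have h3 : p t.1.1 = 0 := by
        have := congrArg e.symm h2
        simpa using this
      exact ⟨⟨t.1.1, h3⟩, Subtype.ext (Prod.ext rfl ht'.symm)⟩
  have x2 : LinearMap.range j2 = LinearMap.ker g2 := by
    ext t
    rw [LinearMap.mem_range, LinearMap.mem_ker]
    constructor
    · rintro ⟨y, rfl⟩
      rfl
    · intro ht
      have ht' : t.1.1 = 0 := ht
      have h2 := (hP t.1).mp t.2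
      rw [ht', map_zero, map_zero] at h2
      exact ⟨⟨t.1.2, h2.symm⟩, Subtype.ext (Prod.ext ht'.symm rfl)⟩
  obtain ⟨f1⟩ := exists_split j1 g1 i1 x1 s1
  obtain ⟨f2⟩ := exists_split j2 g2 i2 x2 s2
  exact ⟨f1 ≪≫ₗ f2.symm⟩

/-- The horseshoe: resolutions of the ends of an exact sequence give one of the middle. -/
theorem horseshoe {A B C : Type*} [AddCommGroup A] [Module R A] [AddCommGroup B] [Module R B]
    [AddCommGroup C] [Module R C] (f : A →ₗ[R] B) (g : B →ₗ[R] C) (hf : Function.Injective f)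
    (hfg : Function.Exact f g) (hg : Function.Surjective g)
    {F G : Type*} [AddCommGroup F] [Module R F] [AddCommGroup G] [Module R G]
    [Module.Projective R G] (p : F →ₗ[R] A) (q : G →ₗ[R] C) (hp : Function.Surjective p)
    (hq : Function.Surjective q) [Module.Projective R (LinearMap.ker q)] :
    ∃ r : (F × G) →ₗ[R] B, Function.Surjective r ∧
      Nonempty ((LinearMap.ker p × LinearMap.ker q) ≃ₗ[R] LinearMap.ker r) := by
  obtain ⟨h, hh⟩ := Module.projective_lifting_property g q hg
  have hh' : ∀ y, g (h y) = q y := fun y => congrArg (fun t : G →ₗ[R] C => t y) hh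
  let r : (F × G) →ₗ[R] B := (f ∘ₗ p).coprod h
  have hr : ∀ x, r x = f (p x.1) + h x.2 := fun x => by simp [r]
  have gf : ∀ a, g (f a) = 0 := fun a => (hfg (f a)).mpr ⟨a, rfl⟩
  refine ⟨r, ?_, ?_⟩
  · intro b
    obtain ⟨y, hy⟩ := hq (g b)
    have : g (b - h y) = 0 := by rw [map_sub, hh', hy, sub_self]
    obtain ⟨a, ha⟩ := (hfg _).mp this
    obtain ⟨z, hz⟩ := hp a
    exact ⟨(z, y), by rw [hr]; simp only; rw [hz, ha]; abel⟩
  · have hk : ∀ t : LinearMap.ker r, t.1.2 ∈ LinearMap.ker q := by
      intro t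
      have h1 : f (p t.1.1) + h t.1.2 = 0 := by rw [← hr]; exact t.2
      have h2 := congrArg g h1
      rw [map_add, gf, zero_add, hh', map_zero] at h2
      exact h2
    let g' : LinearMap.ker r →ₗ[R] LinearMap.ker q :=
      LinearMap.codRestrict _ (LinearMap.snd R F G ∘ₗ (LinearMap.ker r).subtype) hk
    let j' : LinearMap.ker p →ₗ[R] LinearMap.ker r :=
      LinearMap.codRestrict _ (LinearMap.inl R F G ∘ₗ (LinearMap.ker p).subtype) (fun c => by
        have : p (c : F) = 0 := c.2
        rw [LinearMap.mem_ker, hr]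
        simp [this])
    have sg : Function.Surjective g' := by
      intro y
      have h1 : g (h y.1) = 0 := by rw [hh']; exact y.2
      obtain ⟨a, ha⟩ := (hfg _).mp h1
      obtain ⟨z, hz⟩ := hp (-a)
      refine ⟨⟨(z, y.1), ?_⟩, Subtype.ext rfl⟩
      rw [LinearMap.mem_ker, hr]
      simp only
      rw [hz, map_neg, ha, neg_add_cancel]
    have ij : Function.Injective j' := by
      intro a b hab
      have := congrArg (fun t : LinearMap.ker r => t.1.1) hab
      exact Subtype.ext this
    have xj : LinearMap.range j' = LinearMap.ker g' := by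
      ext t
      rw [LinearMap.mem_range, LinearMap.mem_ker]
      constructor
      · rintro ⟨y, rfl⟩
        rfl
      · intro ht
        have ht' : t.1.2 = 0 := congrArg Subtype.val ht
        have h1 : f (p t.1.1) + h t.1.2 = 0 := by rw [← hr]; exact t.2
        rw [ht', map_zero, add_zero] at h1
        have h2 : p t.1.1 = 0 := hf (by rw [h1, map_zero])
        exact ⟨⟨t.1.1, h2⟩, Subtype.ext (Prod.ext rfl ht'.symm)⟩
    exact exists_split j' g' ij xj sg

end stable

end Pool.Agent.H37.CG
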