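import Mathlib
import Pool.Agent.H37.CG.KT

/-! Class group part of MP_5c3080_gt, (D6): the reduced group K_0 of a Dedekind domain, as an
additive invariant of all finitely generated modules. -/

namespace Pool.Agent.H37.CG

universe u v w x

set_option linter.unusedSectionVars false

variable (R : Type u) [CommRing R] [IsDedekindDomain R]

/-- Submodules of finitely generated free modules. -/
abbrev Sub0 := Σ n : ℕ, Submodule R (Fin n → R)

/-- Stable isomorphism. -/
def srel : Setoid (Sub0 R) where
  r s t := SEq R s.2 t.2
  iseqv := ⟨fun s => SEq.refl s.2, fun h => h.symm, fun h h' => h.trans h'⟩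

/-- The reduced group K_0. -/
def K0t := Quotient (srel R)

variable {R}

/-- The class of a submodule of a free module. -/
def mk0 (s : Sub0 R) : K0t R := Quotient.mk (srel R) s

theorem proj_sub (n : ℕ) (L : Submodule R (Fin n → R)) : Module.Projective R L := by
  have : Module.IsTorsionFree R L := inferInstance
  have : Module.Flat R L := inferInstance
  have : Module.FinitePresentation R L := Module.finitePresentation_of_finite R L
  exact Module.Flat.projective_of_finitePresentation

/-- `x` is the stable class of the module `M`. -/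
def Rep (M : Type v) [AddCommGroup M] [Module R M] (x : K0t R) : Prop :=
  ∃ s : Sub0 R, x = Quotient.mk (srel R) s ∧ SEq R M s.2

theorem Rep.unique {M : Type v} [AddCommGroup M] [Module R M] {N : Type w} [AddCommGroup N]
    [Module R N] {x y : K0t R} (h : Rep M x) (h' : Rep N y) (e : SEq R M N) : x = y := by
  obtain ⟨s, rfl, hs⟩ := h
  obtain ⟨t, rfl, ht⟩ := h'
  exact Quotient.sound (hs.symm.trans (e.trans ht))

theorem Rep.seq {M : Type v} [AddCommGroup M] [Module R M] {N : Type w} [AddCommGroup N]
    [Module R N] {x : K0t R} (h : Rep M x) (h' : Rep N x) : SEq R M N := by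
  obtain ⟨s, hx, hs⟩ := h
  obtain ⟨t, hy, ht⟩ := h'
  have : SEq R s.2 t.2 := Quotient.exact (hx.symm.trans hy)
  exact hs.trans (this.trans ht.symm)

theorem Rep.of_seq {M : Type v} [AddCommGroup M] [Module R M] {N : Type w} [AddCommGroup N]
    [Module R N] {x : K0t R} (h : Rep M x) (e : SEq R M N) : Rep N x := by
  obtain ⟨s, hx, hs⟩ := h
  exact ⟨s, hx, e.symm.trans hs⟩

theorem rep_mk (s : Sub0 R) : Rep (R := R) s.2 (Quotient.mk (srel R) s) := ⟨s, rfl, SEq.refl _⟩

/-- Every finitely generated projective module has a class. -/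
theorem exists_rep (M : Type v) [AddCommGroup M] [Module R M] [Module.Finite R M]
    [Module.Projective R M] : ∃ x : K0t R, Rep M x := by
  obtain ⟨n, f, hf⟩ := Module.Finite.exists_fin' R M
  obtain ⟨s, hs⟩ := Module.projective_lifting_property f LinearMap.id hf
  have hinj : Function.Injective s := by
    intro a b hab
    have ha := congrArg (fun t : M →ₗ[R] M => t a) hs
    have hb := congrArg (fun t : M →ₗ[R] M => t b) hs
    simp only [LinearMap.comp_apply, LinearMap.id_apply] at ha hb
    rw [← ha, ← hb, hab]
  exact ⟨Quotient.mk (srel R) ⟨n, LinearMap.range s⟩, _, rfl,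
    SEq.of_equiv (LinearEquiv.ofInjective s hinj)⟩

/-- The sum of two classes. -/
theorem exists_add (s t : Sub0 R) : ∃ r : Sub0 R, SEq R (s.2 × t.2) r.2 := by
  have h1 := proj_sub s.1 s.2
  have h2 := proj_sub t.1 t.2
  obtain ⟨x, r, _, hr⟩ := exists_rep (R := R) (s.2 × t.2)
  exact ⟨r, hr⟩

theorem exists_neg (s : Sub0 R) : ∃ r : Sub0 R, ∃ n : ℕ, Nonempty ((r.2 × s.2) ≃ₗ[R] (Fin n → R)) := by
  have h1 := proj_sub s.1 s.2
  obtain ⟨n, f, hf⟩ := Module.Finite.exists_fin' R s.2
  obtain ⟨e⟩ := exists_split (LinearMap.ker f).subtype f (Submodule.subtype_injective _)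
    (Submodule.range_subtype _) hf
  exact ⟨⟨n, LinearMap.ker f⟩, n, ⟨e⟩⟩

noncomputable instance : Zero (K0t R) := ⟨Quotient.mk (srel R) ⟨0, ⊥⟩⟩

noncomputable instance : Add (K0t R) :=
  ⟨fun x y => Quotient.mk (srel R) (exists_add x.out y.out).choose⟩

noncomputable instance : Neg (K0t R) :=
  ⟨fun x => Quotient.mk (srel R) (exists_neg x.out).choose⟩

theorem rep_out (x : K0t R) : Rep (R := R) x.out.2 x := ⟨x.out, (Quotient.out_eq x).symm, SEq.refl _⟩

theorem Rep.add {M : Type v} [AddCommGroup M] [Module R M] {N : Type w} [AddCommGroup N]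
    [Module R N] {x y : K0t R} (h : Rep M x) (h' : Rep N y) : Rep (M × N) (x + y) := by
  refine ⟨(exists_add x.out y.out).choose, rfl, ?_⟩
  exact ((h.seq (rep_out x)).prod (h'.seq (rep_out y))).trans
    (exists_add x.out y.out).choose_spec

theorem SEq.of_finite_free {M : Type v} [AddCommGroup M] [Module R M] {N : Type w}
    [AddCommGroup N] [Module R N] [Module.Finite R M] [Module.Free R M] [Module.Finite R N]
    [Module.Free R N] : SEq R M N :=
  SEq.of_free (F := N) (G := M) (LinearEquiv.prodComm R M N)

theorem rep_free (M : Type v) [AddCommGroup M] [Module R M] [Module.Finite R M]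
    [Module.Free R M] : Rep (R := R) M 0 :=
  ⟨⟨0, ⊥⟩, rfl, SEq.of_finite_free⟩

theorem SEq.prod_free {M : Type v} [AddCommGroup M] [Module R M] {N : Type w}
    [AddCommGroup N] [Module R N] [Module.Finite R N] [Module.Free R N] : SEq R (M × N) M :=
  SEq.of_free (F := Fin 0 → R) (G := N × (Fin 0 → R)) (LinearEquiv.prodAssoc R M N _)

noncomputable instance : AddCommGroup (K0t R) where
  add_assoc x y z := by
    refine Rep.unique (((rep_out x).add (rep_out y)).add (rep_out z))
      ((rep_out x).add ((rep_out y).add (rep_out z))) ?_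
    exact SEq.of_equiv (LinearEquiv.prodAssoc R _ _ _)
  zero_add x := by
    refine Rep.unique ((rep_free (R := R) (Fin 0 → R)).add (rep_out x)) (rep_out x) ?_
    exact (SEq.of_equiv (LinearEquiv.prodComm R _ _)).trans SEq.prod_free
  add_zero x := by
    refine Rep.unique ((rep_out x).add (rep_free (R := R) (Fin 0 → R))) (rep_out x) ?_
    exact SEq.prod_free
  add_comm x y := by
    refine Rep.unique ((rep_out x).add (rep_out y)) ((rep_out y).add (rep_out x)) ?_
    exact SEq.of_equiv (LinearEquiv.prodComm R _ _)
  neg_add_cancel x := by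
    obtain ⟨n, ⟨e⟩⟩ := (exists_neg x.out).choose_spec
    have h1 : Rep (R := R) (exists_neg x.out).choose.2 (-x) := rep_mk _
    refine Rep.unique (h1.add (rep_out x)) (rep_free (R := R) (Fin n → R)) ?_
    exact SEq.of_equiv e
  nsmul := nsmulRec
  zsmul := zsmulRec

/-- The class of a finitely generated module. -/
noncomputable def cls (M : Type v) [AddCommGroup M] [Module R M] [Module.Finite R M] : K0t R :=
  -(mk0 ⟨(Module.Finite.exists_fin' R M).choose,
    LinearMap.ker (Module.Finite.exists_fin' R M).choose_spec.choose⟩)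

/-- The class can be computed by any resolution. -/
theorem cls_rep {M : Type v} [AddCommGroup M] [Module R M] [Module.Finite R M] {F : Type w}
    [AddCommGroup F] [Module R F] [Module.Finite R F] [Module.Free R F] (p : F →ₗ[R] M)
    (hp : Function.Surjective p) : Rep (R := R) (LinearMap.ker p) (-cls (R := R) M) := by
  have h1 : Rep (R := R) (LinearMap.ker (Module.Finite.exists_fin' R M).choose_spec.choose)
      (-cls (R := R) M) := by
    rw [cls, neg_neg]
    exact rep_mk _
  refine h1.of_seq ?_
  obtain ⟨e⟩ := schanuel (Module.Finite.exists_fin' R M).choose_spec.choose p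
    (LinearEquiv.refl R M) (Module.Finite.exists_fin' R M).choose_spec.choose_spec hp
  exact SEq.of_free e

theorem proj_ker {M : Type v} [AddCommGroup M] [Module R M] {F : Type w}
    [AddCommGroup F] [Module R F] [Module.Finite R F] [Module.Free R F] (p : F →ₗ[R] M) :
    Module.Projective R (LinearMap.ker p) := by
  have : Module.IsTorsionFree R F := inferInstance
  have : Module.IsTorsionFree R (LinearMap.ker p) := inferInstance
  have : Module.Flat R (LinearMap.ker p) := inferInstance
  have : Module.FinitePresentation R (LinearMap.ker p) := Module.finitePresentation_of_finite R _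
  exact Module.Flat.projective_of_finitePresentation

theorem cls_congr {M : Type v} [AddCommGroup M] [Module R M] [Module.Finite R M] {N : Type w}
    [AddCommGroup N] [Module R N] [Module.Finite R N] (e : M ≃ₗ[R] N) :
    cls (R := R) M = cls (R := R) N := by
  obtain ⟨n, p, hp⟩ := Module.Finite.exists_fin' R M
  have h1 := cls_rep p hp
  have h2 := cls_rep (e.toLinearMap ∘ₗ p) (e.surjective.comp hp)
  have h3 : LinearMap.ker (e.toLinearMap ∘ₗ p) = LinearMap.ker p := LinearEquiv.ker_comp e p
  rw [h3] at h2
  exact neg_injective (h1.unique h2 (SEq.refl _))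

/-- The class is additive on short exact sequences. -/
theorem cls_exact {A B C : Type*} [AddCommGroup A] [Module R A] [AddCommGroup B] [Module R B]
    [AddCommGroup C] [Module R C] [Module.Finite R A] [Module.Finite R B] [Module.Finite R C]
    (f : A →ₗ[R] B) (g : B →ₗ[R] C) (hf : Function.Injective f)
    (hfg : Function.Exact f g) (hg : Function.Surjective g) :
    cls (R := R) B = cls (R := R) A + cls (R := R) C := by
  obtain ⟨n, p, hp⟩ := Module.Finite.exists_fin' R A
  obtain ⟨m, q, hq⟩ := Module.Finite.exists_fin' R C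
  have := proj_ker q
  obtain ⟨r, hr, ⟨e⟩⟩ := horseshoe f g hf hfg hg p q hp hq
  have h1 := (cls_rep p hp).add (cls_rep q hq)
  have h2 := cls_rep r hr
  have h3 := h1.unique h2 (SEq.of_equiv e)
  rw [← neg_add] at h3
  exact (neg_injective h3).symm

/-- Free modules have class zero. -/
theorem cls_free (M : Type v) [AddCommGroup M] [Module R M] [Module.Finite R M]
    [Module.Free R M] : cls (R := R) M = 0 := by
  have h1 := cls_rep (LinearMap.id : M →ₗ[R] M) Function.surjective_id
  have h2 : Rep (R := R) (LinearMap.ker (LinearMap.id : M →ₗ[R] M)) 0 := by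
    rw [LinearMap.ker_id]
    exact rep_free _
  have h3 := h1.unique h2 (SEq.refl _)
  rw [← neg_zero] at h3
  exact neg_injective h3

/-- For a projective module the class vanishes exactly if the module is stably free. -/
theorem cls_eq_zero (M : Type v) [AddCommGroup M] [Module R M] [Module.Finite R M]
    [Module.Projective R M] (h : cls (R := R) M = 0) : SEq R M (Fin 0 → R) := by
  obtain ⟨n, p, hp⟩ := Module.Finite.exists_fin' R M
  have h1 := cls_rep p hp
  rw [h, neg_zero] at h1
  have h2 := h1.seq (rep_free (R := R) (Fin 0 → R))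
  obtain ⟨e⟩ := exists_split (LinearMap.ker p).subtype p (Submodule.subtype_injective _)
    (Submodule.range_subtype _) hp
  -- `ker p × M ≃ R ^ n`
  have h3 : SEq R (M × (Fin 0 → R)) (M × LinearMap.ker p) := (SEq.refl M).prod h2.symm
  have h4 : SEq R (M × LinearMap.ker p) (Fin 0 → R) :=
    (SEq.of_equiv ((LinearEquiv.prodComm R _ _) ≪≫ₗ e)).trans SEq.of_finite_free
  exact (SEq.prod_free (N := Fin 0 → R)).symm.trans (h3.trans h4)

/-- Kernel and cokernel of an endomorphism have the same class. -/
theorem cls_ker_coker {M : Type v} [AddCommGroup M] [Module R M] [Module.Finite R M]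
    (f : M →ₗ[R] M) : cls (R := R) (LinearMap.ker f) = cls (R := R) (M ⧸ LinearMap.range f) := by
  have h1 := cls_exact (R := R) (LinearMap.ker f).subtype f.rangeRestrict
    (Submodule.subtype_injective _) (by
      rw [LinearMap.exact_iff, LinearMap.ker_rangeRestrict, Submodule.range_subtype])
    f.surjective_rangeRestrict
  have h2 := cls_exact (R := R) (LinearMap.range f).subtype (LinearMap.range f).mkQ
    (Submodule.subtype_injective _) (by
      rw [LinearMap.exact_iff, Submodule.ker_mkQ, Submodule.range_subtype])
    (Submodule.mkQ_surjective _)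
  rw [h1, add_comm] at h2
  exact add_left_cancel h2

end Pool.Agent.H37.CG
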