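import Mathlib
import Pool.Agent.H37.CG.K0

/-! Class group part of MP_5c3080_gt, (D6): the Euler class of a bounded complex. -/

namespace Pool.Agent.H37.CG

universe u v

section

variable {R : Type u} [CommRing R]
variable {C : ℕ → Type v} [∀ n, AddCommGroup (C n)] [∀ n, Module R (C n)]

/-- The cycles of a complex `... → C 2 → C 1 → C 0`. -/
def Zc (d : ∀ n, C (n + 1) →ₗ[R] C n) : ∀ n, Submodule R (C n)
  | 0 => ⊤
  | n + 1 => LinearMap.ker (d n)

/-- The boundaries. -/
def Bc (d : ∀ n, C (n + 1) →ₗ[R] C n) (n : ℕ) : Submodule R (C n) := LinearMap.range (d n)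

/-- The homology. -/
abbrev Hc (d : ∀ n, C (n + 1) →ₗ[R] C n) (n : ℕ) : Type v :=
  (Zc d n) ⧸ ((Bc d n).comap (Zc d n).subtype)

theorem Bc_le_Zc (d : ∀ n, C (n + 1) →ₗ[R] C n) (hd : ∀ n, d n ∘ₗ d (n + 1) = 0) (n : ℕ) :
    Bc d n ≤ Zc d n := by
  cases n with
  | zero => exact le_top
  | succ n =>
    rintro _ ⟨y, rfl⟩
    exact congrArg (fun t : C (n + 2) →ₗ[R] C n => t y) (hd n)

end

variable {R : Type u} [CommRing R] [IsDedekindDomain R]
variable {C : ℕ → Type v} [∀ n, AddCommGroup (C n)] [∀ n, Module R (C n)]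
  [∀ n, Module.Finite R (C n)]

/-- A quotient by a smaller submodule. -/
theorem cls_quot {M : Type v} [AddCommGroup M] [Module R M] [Module.Finite R M]
    (N : Submodule R M) : cls (R := R) M = cls (R := R) N + cls (R := R) (M ⧸ N) :=
  cls_exact (R := R) N.subtype N.mkQ (Submodule.subtype_injective _) (by
      rw [LinearMap.exact_iff, Submodule.ker_mkQ, Submodule.range_subtype])
    (Submodule.mkQ_surjective _)

theorem cls_subsingleton (M : Type v) [AddCommGroup M] [Module R M] [Module.Finite R M]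
    [Subsingleton M] : cls (R := R) M = 0 := by
  have : Module.Free R M := Module.Free.of_subsingleton R M
  exact cls_free M

theorem cls_map {M : Type*} [AddCommGroup M] [Module R M] [Module.Finite R M]
    {N : Type*} [AddCommGroup N] [Module R N] [Module.Finite R N] (f : M →ₗ[R] N) :
    cls (R := R) M = cls (R := R) (LinearMap.ker f) + cls (R := R) (LinearMap.range f) :=
  cls_exact (R := R) (LinearMap.ker f).subtype f.rangeRestrict
    (Submodule.subtype_injective _) (by
      rw [LinearMap.exact_iff, LinearMap.ker_rangeRestrict, Submodule.range_subtype])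
    f.surjective_rangeRestrict

theorem cls_Zc (d : ∀ n, C (n + 1) →ₗ[R] C n) (hd : ∀ n, d n ∘ₗ d (n + 1) = 0) (n : ℕ) :
    cls (R := R) (Zc d n) = cls (R := R) (Bc d n) + cls (R := R) (Hc d n) := by
  rw [cls_quot ((Bc d n).comap (Zc d n).subtype)]
  congr 1
  exact cls_congr (Submodule.comapSubtypeEquivOfLe (Bc_le_Zc d hd n))

theorem euler_partial (d : ∀ n, C (n + 1) →ₗ[R] C n) (hd : ∀ n, d n ∘ₗ d (n + 1) = 0) (N : ℕ) :
    ∑ n ∈ Finset.range (N + 1), (-1 : ℤ) ^ n • cls (R := R) (C n) =
      ∑ n ∈ Finset.range (N + 1), (-1 : ℤ) ^ n • cls (R := R) (Hc d n) +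
        (-1 : ℤ) ^ N • cls (R := R) (Bc d N) := by
  induction N with
  | zero =>
    have h0 : cls (R := R) (C 0) = cls (R := R) (Zc d 0) :=
      cls_congr (Submodule.topEquiv (R := R) (M := C 0)).symm
    rw [Finset.sum_range_one, Finset.sum_range_one, h0, cls_Zc d hd 0]
    simp [add_comm]
  | succ N ih =>
    rw [Finset.sum_range_succ, ih, Finset.sum_range_succ (n := N + 1)]
    have h1 : cls (R := R) (C (N + 1)) = cls (R := R) (Zc d (N + 1)) + cls (R := R) (Bc d N) :=
      cls_map (d N)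
    rw [h1, cls_Zc d hd (N + 1), pow_succ]
    simp only [mul_neg, mul_one, neg_smul, smul_add, neg_add]
    abel

/-- The Euler class of a bounded complex is the Euler class of its homology. -/
theorem euler (d : ∀ n, C (n + 1) →ₗ[R] C n) (hd : ∀ n, d n ∘ₗ d (n + 1) = 0) (N : ℕ)
    (hN : Subsingleton (C (N + 1))) :
    ∑ n ∈ Finset.range (N + 1), (-1 : ℤ) ^ n • cls (R := R) (C n) =
      ∑ n ∈ Finset.range (N + 1), (-1 : ℤ) ^ n • cls (R := R) (Hc d n) := by
  rw [euler_partial d hd N]
  have : Bc d N = ⊥ := by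
    rw [Bc, LinearMap.range_eq_bot]
    exact Subsingleton.elim _ _
  have h1 : Subsingleton (Bc d N) := by
    rw [this]
    infer_instance
  rw [cls_subsingleton (Bc d N), smul_zero, add_zero]

/-- The Euler class of the homology of a bounded complex of free modules vanishes. -/
theorem euler_free [∀ n, Module.Free R (C n)] (d : ∀ n, C (n + 1) →ₗ[R] C n)
    (hd : ∀ n, d n ∘ₗ d (n + 1) = 0) (N : ℕ) (hN : Subsingleton (C (N + 1))) :
    ∑ n ∈ Finset.range (N + 1), (-1 : ℤ) ^ n • cls (R := R) (Hc d n) = 0 := by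
  rw [← euler d hd N hN]
  refine Finset.sum_eq_zero fun n _ => ?_
  rw [cls_free, smul_zero]

end Pool.Agent.H37.CG
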