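import Mathlib

/-! Class group part of MP_5c3080_gt, (D1): the norm from the 23rd cyclotomic ring to the
quadratic ring of discriminant -23, computed in the group ring of Z/23. -/

namespace Pool.Agent.H37.CG

open AddMonoidAlgebra

/-- The group ring of the cyclic group of order 23. -/
abbrev GR := AddMonoidAlgebra ℤ (ZMod 23)

/-- The squares modulo 23. -/
def H : Finset (ZMod 23) := {1, 2, 3, 4, 6, 8, 9, 12, 13, 16, 18}

/-- The endomorphism of the group ring with `x ↦ c x` on the group. -/
noncomputable def psi (c : ZMod 23) : GR →+* GR :=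
  mapDomainRingHom ℤ (AddMonoidHom.mulLeft c)

theorem psi_coeff (c : ZMod 23) (hc : c ≠ 0) (u : GR) (x : ZMod 23) :
    (psi c u).coeff (c * x) = u.coeff x := by
  have : Fact (Nat.Prime 23) := ⟨by norm_num⟩
  have hinj : Function.Injective (fun x : ZMod 23 => c * x) := mul_right_injective₀ hc
  exact Finsupp.mapDomain_apply hinj u.coeff x

theorem psi_single (c x : ZMod 23) (a : ℤ) :
    psi c (AddMonoidAlgebra.single x a) = AddMonoidAlgebra.single (c * x) a := by
  simp [psi]

theorem psi_psi (c d : ZMod 23) (u : GR) : psi c (psi d u) = psi (c * d) u := by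
  have : (psi c).comp (psi d) = psi (c * d) := by
    ext x
    · simp [psi]
    · simp [psi_single, mul_assoc]
  exact congrArg (fun f : GR →+* GR => f u) this

/-- The norm to the quadratic subring. -/
noncomputable def P (u : GR) : GR := ∏ c ∈ H, psi c u

theorem H_ne : ∀ d ∈ H, d ≠ 0 := by decide

theorem H_img : ∀ d ∈ H, H.image (fun c => d * c) = H := by decide

theorem psi_P (d : ZMod 23) (hd : d ∈ H) (u : GR) : psi d (P u) = P u := by
  have : Fact (Nat.Prime 23) := ⟨by norm_num⟩
  unfold P
  rw [map_prod]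
  conv_rhs => rw [← H_img d hd]
  rw [Finset.prod_image]
  · exact Finset.prod_congr rfl fun c _ => psi_psi d c u
  · intro a _ b _ h
    exact mul_right_injective₀ (H_ne d hd) h

theorem P_coeff (u : GR) (d x : ZMod 23) (hd : d ∈ H) :
    (P u).coeff (d * x) = (P u).coeff x := by
  have h := psi_coeff d (H_ne d hd) (P u) x
  rwa [psi_P d hd u] at h

/-- Evaluation of the group ring at a 23rd root of unity. -/
noncomputable def ev {S : Type*} [CommRing S] (z : S) (hz : z ^ 23 = 1) : GR →+* S :=
  (AddMonoidAlgebra.lift ℤ S (ZMod 23)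
    { toFun := fun x => z ^ (Multiplicative.toAdd x).val
      map_one' := by simp
      map_mul' := by
        intro x y
        rw [toAdd_mul, ZMod.val_add, ← pow_eq_pow_mod _ hz, pow_add] } : GR →ₐ[ℤ] S).toRingHom

theorem ev_single {S : Type*} [CommRing S] (z : S) (hz : z ^ 23 = 1) (x : ZMod 23) (a : ℤ) :
    ev z hz (AddMonoidAlgebra.single x a) = (a : S) * z ^ x.val := by
  simp [ev, AddMonoidAlgebra.lift_single]

theorem ev_psi {S : Type*} [CommRing S] (z : S) (hz : z ^ 23 = 1) (c : ZMod 23) (u : GR)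
    (hzc : (z ^ c.val) ^ 23 = 1) : ev z hz (psi c u) = ev (z ^ c.val) hzc u := by
  have : (ev z hz).comp (psi c) = ev (z ^ c.val) hzc := by
    ext x
    · simp
    · simp [psi_single, ev_single]
      rw [← pow_mul, ZMod.val_mul, ← pow_eq_pow_mod _ hz]
  exact congrArg (fun f : GR →+* S => f u) this

theorem ev_eq_sum {S : Type*} [CommRing S] (z : S) (hz : z ^ 23 = 1) (u : GR) :
    ev z hz u = ∑ x : ZMod 23, (u.coeff x : S) * z ^ x.val := by
  induction u using AddMonoidAlgebra.induction_linear with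
  | zero => simp
  | add f g hf hg =>
    rw [map_add, hf, hg, ← Finset.sum_add_distrib]
    refine Finset.sum_congr rfl fun x _ => ?_
    simp [add_mul]
  | single a b =>
    rw [ev_single]
    rw [Finset.sum_eq_single a]
    · simp
    · intro x _ hx
      simp [Ne.symm hx]
    · simp

/-- The Gauss period. -/
def eta {S : Type*} [CommRing S] (z : S) : S := ∑ c ∈ H, z ^ c.val

/-- The conjugate Gauss period. -/
def eta' {S : Type*} [CommRing S] (z : S) : S := ∑ c ∈ H, z ^ (-c).val

theorem sum_split {M : Type*} [AddCommMonoid M] (f : ZMod 23 → M) :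
    ∑ x : ZMod 23, f x = f 0 + ∑ c ∈ H, f c + ∑ c ∈ H, f (-c) := by
  have h1 : (Finset.univ : Finset (ZMod 23)) = ({0} ∪ H) ∪ H.image (fun c => -c) := by decide
  rw [h1, Finset.sum_union (by decide), Finset.sum_union (by decide), Finset.sum_singleton,
    Finset.sum_image (fun a _ b _ h => neg_injective h)]

theorem sum_zmod {S : Type*} [CommRing S] (z : S) :
    ∑ x : ZMod 23, z ^ x.val = ∑ i ∈ Finset.range 23, z ^ i :=
  Fin.sum_univ_eq_sum_range (fun i => z ^ i) 23

theorem eta_add {S : Type*} [CommRing S] (z : S) (hs : ∑ i ∈ Finset.range 23, z ^ i = 0) :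
    1 + eta z + eta' z = 0 := by
  rw [← hs, ← sum_zmod, sum_split]
  simp [eta, eta']

theorem card_diff : ∀ x : ZMod 23,
    ((H ×ˢ H).filter (fun p => p.1 + -p.2 = x)).card = if x = 0 then 11 else 5 := by
  decide +kernel

theorem eta_mul {S : Type*} [CommRing S] (z : S) (hz : z ^ 23 = 1)
    (hs : ∑ i ∈ Finset.range 23, z ^ i = 0) : eta z * eta' z = 6 := by
  have h1 : eta z * eta' z = ∑ p ∈ H ×ˢ H, z ^ (p.1 + -p.2).val := by
    rw [eta, eta', Finset.sum_mul_sum, ← Finset.sum_product']
    refine Finset.sum_congr rfl fun p _ => ?_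
    rw [ZMod.val_add, ← pow_eq_pow_mod _ hz, pow_add]
  rw [h1, ← Finset.sum_fiberwise' (H ×ˢ H) (fun p : ZMod 23 × ZMod 23 => p.1 + -p.2)
    (fun x : ZMod 23 => z ^ x.val)]
  have h2 : ∀ x : ZMod 23, ∑ _p ∈ (H ×ˢ H).filter (fun p => p.1 + -p.2 = x), z ^ x.val =
      5 * z ^ x.val + (if x = 0 then 6 else 0) := by
    intro x
    rw [Finset.sum_const, card_diff x]
    split_ifs with h
    · subst h; norm_num
    · simp
  simp only [h2]
  rw [Finset.sum_add_distrib, ← Finset.mul_sum, sum_zmod, hs]
  simp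

theorem ev_P {S : Type*} [CommRing S] (z : S) (hz : z ^ 23 = 1) (u : GR) :
    ev z hz (P u) = ((P u).coeff 0 : S) + ((P u).coeff 1 : S) * eta z +
      ((P u).coeff (-1) : S) * eta' z := by
  rw [ev_eq_sum, sum_split]
  congr 1
  · congr 1
    · simp
    · rw [eta, Finset.mul_sum]
      refine Finset.sum_congr rfl fun c hc => ?_
      have := P_coeff u c 1 hc
      rw [mul_one] at this
      rw [this]
  · rw [eta', Finset.mul_sum]
    refine Finset.sum_congr rfl fun c hc => ?_
    have := P_coeff u c (-1) hc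
    rw [mul_neg_one] at this
    rw [this]

theorem ev_psi_P {S : Type*} [CommRing S] (z : S) (hz : z ^ 23 = 1) (u : GR) :
    ev z hz (psi (-1) (P u)) = ((P u).coeff 0 : S) + ((P u).coeff 1 : S) * eta' z +
      ((P u).coeff (-1) : S) * eta z := by
  have hzc : (z ^ (-1 : ZMod 23).val) ^ 23 = 1 := by rw [← pow_mul, mul_comm, pow_mul, hz, one_pow]
  have hv : ∀ c : ZMod 23, (z ^ (-1 : ZMod 23).val) ^ c.val = z ^ (-c).val := by
    intro c
    rw [← pow_mul, ← neg_one_mul c, ZMod.val_mul, ← pow_eq_pow_mod _ hz]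
  rw [ev_psi z hz (-1) (P u) hzc, ev_P]
  have e1 : eta (z ^ (-1 : ZMod 23).val) = eta' z := by
    unfold eta eta'
    exact Finset.sum_congr rfl fun c _ => hv c
  have e2 : eta' (z ^ (-1 : ZMod 23).val) = eta z := by
    unfold eta eta'
    refine Finset.sum_congr rfl fun c _ => ?_
    rw [hv, neg_neg]
  rw [e1, e2]

/-- The norm form: the product of all conjugates of an element of the group ring is
`A ^ 2 - A B + 6 B ^ 2`, wherever the sum of the powers of the root of unity vanishes. -/
theorem norm_form (u : GR) : ∃ A B : ℤ, ∀ (S : Type) [CommRing S] (z : S) (hz : z ^ 23 = 1),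
    ∑ i ∈ Finset.range 23, z ^ i = 0 →
    ∏ c ∈ Finset.univ.erase (0 : ZMod 23), ev z hz (psi c u) =
      ((A ^ 2 - A * B + 6 * B ^ 2 : ℤ) : S) := by
  refine ⟨(P u).coeff 0 - (P u).coeff (-1), (P u).coeff 1 - (P u).coeff (-1), ?_⟩
  intro S _ z hz hs
  have hsplit : Finset.univ.erase (0 : ZMod 23) = H ∪ H.image (fun c => -1 * c) := by decide
  rw [hsplit, Finset.prod_union (by decide), Finset.prod_image (by decide)]
  have h1 : ∏ c ∈ H, ev z hz (psi c u) = ev z hz (P u) := by
    rw [P, map_prod]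
  have h2 : ∏ c ∈ H, ev z hz (psi (-1 * c) u) = ev z hz (psi (-1) (P u)) := by
    rw [P, map_prod, map_prod]
    exact Finset.prod_congr rfl fun c _ => by rw [psi_psi]
  rw [h1, h2, ev_P, ev_psi_P]
  have e3 := eta_add z hs
  have e4 := eta_mul z hz hs
  have e5 : eta' z = -1 - eta z := by linear_combination e3
  rw [e5] at e4 ⊢
  push_cast
  linear_combination (((P u).coeff 1 - (P u).coeff (-1) : S)) ^ 2 * e4

end Pool.Agent.H37.CG
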