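import Mathlib
import Pool.Agent.H37.CG.Form

/-! Class group part of MP_5c3080_gt, (D2): the ring of integers of the 23rd cyclotomic field,
its norm, and the prime over 47. -/

namespace Pool.Agent.H37.CG

open NumberField

/-- The cyclotomic field. -/
abbrev K23 := CyclotomicField 23 ℚ

instance : IsCyclotomicExtension {23} ℚ K23 := CyclotomicField.isCyclotomicExtension 23 ℚ

instance : NumberField K23 := IsCyclotomicExtension.numberField {23} ℚ K23

/-- Its ring of integers. -/
abbrev T := 𝓞 K23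

/-- The primitive root of unity. -/
noncomputable def zT : T := (IsCyclotomicExtension.zeta_spec 23 ℚ K23).toInteger

theorem zT_prim : IsPrimitiveRoot zT 23 :=
  (IsCyclotomicExtension.zeta_spec 23 ℚ K23).toInteger_isPrimitiveRoot

theorem zT_pow : zT ^ 23 = 1 := zT_prim.pow_eq_one

theorem zT_sum : ∑ i ∈ Finset.range 23, zT ^ i = 0 :=
  zT_prim.geom_sum_eq_zero (by norm_num)

/-- The power basis. -/
noncomputable def pb : PowerBasis ℤ T :=
  (IsCyclotomicExtension.zeta_spec 23 ℚ K23).integralPowerBasis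

theorem pb_gen : pb.gen = zT :=
  (IsCyclotomicExtension.zeta_spec 23 ℚ K23).integralPowerBasis_gen

theorem minpoly_zT : minpoly ℤ zT = Polynomial.cyclotomic 23 ℤ := by
  rw [← minpoly.algebraMap_eq (RingOfIntegers.coe_injective (K := K23)) zT]
  exact (Polynomial.cyclotomic_eq_minpoly (IsCyclotomicExtension.zeta_spec 23 ℚ K23)
    (by norm_num)).symm

/-- Ring homomorphisms out of `T`. -/
theorem exists_hom {S : Type*} [CommRing S] (y : S) (hy : ∑ i ∈ Finset.range 23, y ^ i = 0) :
    ∃ f : T →+* S, f zT = y := by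
  have : Fact (Nat.Prime 23) := ⟨by norm_num⟩
  have h0 : Polynomial.aeval y (minpoly ℤ pb.gen) = 0 := by
    rw [pb_gen, minpoly_zT, Polynomial.cyclotomic_prime]
    simpa using hy
  refine ⟨(pb.lift y h0).toRingHom, ?_⟩
  have := pb.lift_gen y h0
  rw [pb_gen] at this
  exact this

theorem hom_ev {S : Type*} [CommRing S] (f : T →+* S) (z : T) (hz : z ^ 23 = 1)
    (hfz : (f z) ^ 23 = 1) (u : GR) : f (ev z hz u) = ev (f z) hfz u := by
  rw [ev_eq_sum, ev_eq_sum, map_sum]
  refine Finset.sum_congr rfl fun x _ => ?_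
  simp

theorem ev_surj_poly (p : Polynomial ℤ) : ∃ u : GR, ev zT zT_pow u = Polynomial.aeval zT p := by
  induction p using Polynomial.induction_on' with
  | add p q hp hq =>
    obtain ⟨u, hu⟩ := hp
    obtain ⟨v, hv⟩ := hq
    exact ⟨u + v, by rw [map_add, map_add, hu, hv]⟩
  | monomial n a =>
    refine ⟨AddMonoidAlgebra.single (n : ZMod 23) a, ?_⟩
    rw [ev_single, ZMod.val_natCast, ← pow_eq_pow_mod _ zT_pow, Polynomial.aeval_monomial]
    rfl

theorem ev_surj (x : T) : ∃ u : GR, ev zT zT_pow u = x := by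
  obtain ⟨p, hp⟩ := pb.exists_eq_aeval' x
  rw [pb_gen] at hp
  obtain ⟨u, hu⟩ := ev_surj_poly p
  exact ⟨u, by rw [hu, hp]⟩

theorem zT_pow_sum (c : ZMod 23) (hc : c ≠ 0) :
    ∑ i ∈ Finset.range 23, (zT ^ c.val) ^ i = 0 := by
  have h23 : Nat.Prime 23 := by norm_num
  have hcop : c.val.Coprime 23 := by
    rw [Nat.coprime_comm, Nat.Prime.coprime_iff_not_dvd h23]
    intro hd
    have hlt := ZMod.val_lt c
    have : c.val = 0 := Nat.eq_zero_of_dvd_of_lt hd hlt
    exact hc ((ZMod.val_eq_zero c).mp this)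
  exact (zT_prim.pow_of_coprime c.val hcop).geom_sum_eq_zero (by norm_num)

/-- The Galois conjugations. -/
noncomputable def tau (c : ZMod 23) : T →+* T :=
  if hc : c ≠ 0 then (exists_hom (zT ^ c.val) (zT_pow_sum c hc)).choose else RingHom.id T

theorem tau_zT (c : ZMod 23) (hc : c ≠ 0) : tau c zT = zT ^ c.val := by
  rw [tau, dif_pos hc]
  exact (exists_hom (zT ^ c.val) (zT_pow_sum c hc)).choose_spec

theorem tau_ev (c : ZMod 23) (hc : c ≠ 0) (u : GR) :
    tau c (ev zT zT_pow u) = ev zT zT_pow (psi c u) := by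
  have h1 : (tau c zT) ^ 23 = 1 := by rw [← map_pow, zT_pow, map_one]
  have h2 : (zT ^ c.val) ^ 23 = 1 := by rw [← tau_zT c hc]; exact h1
  rw [hom_ev (tau c) zT zT_pow h1, ev_psi zT zT_pow c u h2]
  congr 1
  congr 1
  exact tau_zT c hc

theorem tau_one (x : T) : tau 1 x = x := by
  obtain ⟨u, rfl⟩ := ev_surj x
  rw [tau_ev 1 (by decide)]
  congr 1
  have : psi 1 = RingHom.id GR := by
    ext x
    · simp
    · simp [psi_single]
  rw [this]
  rfl

/-- The norm of `T` over the integers. -/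
noncomputable def nT (x : T) : T := ∏ c ∈ Finset.univ.erase (0 : ZMod 23), tau c x

theorem nT_mul (x y : T) : nT (x * y) = nT x * nT y := by
  simp [nT, Finset.prod_mul_distrib]

theorem nT_int (n : ℤ) : nT (n : T) = (n : T) ^ 22 := by
  have : (Finset.univ.erase (0 : ZMod 23)).card = 22 := by decide
  simp [nT, this]

theorem nT_form (x : T) : ∃ A B : ℤ, nT x = ((A ^ 2 - A * B + 6 * B ^ 2 : ℤ) : T) := by
  obtain ⟨u, rfl⟩ := ev_surj x
  obtain ⟨A, B, h⟩ := norm_form u
  refine ⟨A, B, ?_⟩
  rw [← h T zT zT_pow zT_sum, nT]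
  refine Finset.prod_congr rfl fun c hc => ?_
  exact tau_ev c (Finset.ne_of_mem_erase hc) u

theorem zT_pow_inj : Function.Injective (fun c : ZMod 23 => zT ^ c.val) := by
  intro a b h
  exact ZMod.val_injective 23 (zT_prim.pow_inj (ZMod.val_lt a) (ZMod.val_lt b) h)

theorem prod_all : ∏ c : ZMod 23, (2 - zT ^ c.val) = 2 ^ 23 - 1 := by
  classical
  have h1 : Finset.univ.image (fun c : ZMod 23 => zT ^ c.val) = Polynomial.nthRootsFinset 23 (1 : T) := by
    apply Finset.eq_of_subset_of_card_le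
    · intro y hy
      obtain ⟨c, _, rfl⟩ := Finset.mem_image.mp hy
      rw [Polynomial.mem_nthRootsFinset (by norm_num)]
      rw [← pow_mul, mul_comm, pow_mul, zT_pow, one_pow]
    · rw [zT_prim.card_nthRootsFinset, Finset.card_image_of_injective _ zT_pow_inj]
      simp
  have h2 := Polynomial.X_pow_sub_one_eq_prod (by norm_num) zT_prim
  have h3 := congrArg (Polynomial.eval 2) h2
  rw [Polynomial.eval_prod] at h3
  simp only [Polynomial.eval_sub, Polynomial.eval_pow, Polynomial.eval_X, Polynomial.eval_one,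
    Polynomial.eval_C] at h3
  rw [h3, ← h1, Finset.prod_image (fun a _ b _ h => zT_pow_inj h)]

theorem nT_sub : nT (zT - 2) = ((47 * 178481 : ℤ) : T) := by
  have h1 : nT (zT - 2) = ∏ c ∈ Finset.univ.erase (0 : ZMod 23), (2 - zT ^ c.val) := by
    rw [nT]
    have hcard : (Finset.univ.erase (0 : ZMod 23)).card = 22 := by decide
    have : ∀ c ∈ Finset.univ.erase (0 : ZMod 23), tau c (zT - 2) = -1 * (2 - zT ^ c.val) := by
      intro c hc
      rw [map_sub, tau_zT c (Finset.ne_of_mem_erase hc)]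
      rw [map_ofNat]
      ring
    rw [Finset.prod_congr rfl this, Finset.prod_mul_distrib, Finset.prod_const, hcard]
    norm_num
  have h2 := prod_all
  rw [← Finset.mul_prod_erase Finset.univ _ (Finset.mem_univ (0 : ZMod 23)), ← h1] at h2
  have h3 : (2 - zT ^ (0 : ZMod 23).val) = 1 := by simp; norm_num
  rw [h3, one_mul] at h2
  rw [h2]
  norm_num

/-- The reduction modulo the prime over 47. -/
theorem exists_rho : ∃ f : T →+* ZMod 47, f zT = 2 :=
  exists_hom 2 (by decide)

end Pool.Agent.H37.CG
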