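import Mathlib
import Pool.Agent.H37.CG.Nrm

/-! Class group part of MP_5c3080_gt, (D3)-(D4): the ideal (47, zeta - 2) of
`Z[zeta_23, 1/23]` is not principal. -/

namespace Pool.Agent.H37.CG

/-- `a ^ 2 + 23 b ^ 2 = 188 * 23 ^ k` has no integer solutions. -/
theorem no_sol (k : ℕ) : ∀ a b : ℤ, a ^ 2 + 23 * b ^ 2 ≠ 188 * 23 ^ k := by
  induction k with
  | zero =>
    intro a b h
    have hb : b ^ 2 ≤ 8 := by nlinarith [sq_nonneg a]
    have hb1 : -2 ≤ b := by nlinarith
    have hb2 : b ≤ 2 := by nlinarith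
    have ha1 : -13 ≤ a := by nlinarith [sq_nonneg b]
    have ha2 : a ≤ 13 := by nlinarith [sq_nonneg b]
    interval_cases b <;> interval_cases a <;> omega
  | succ k ih =>
    intro a b h
    have hd : (23 : ℤ) ∣ a ^ 2 := ⟨188 * 23 ^ k - b ^ 2, by rw [pow_succ 23 k] at h; linarith⟩
    have hp : Prime (23 : ℤ) := by norm_num
    obtain ⟨c, rfl⟩ := hp.dvd_of_dvd_pow hd
    apply ih b c
    rw [pow_succ 23 k] at h
    linarith

theorem no_form (k : ℕ) (A B : ℤ) : A ^ 2 - A * B + 6 * B ^ 2 ≠ 47 * 23 ^ k := by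
  intro h
  apply no_sol k (2 * A - B) B
  linarith

theorem h23ne : (23 : ZMod 47) ≠ 0 := by decide

theorem pow_eq_zero_iff_lem {M : Type*} [MonoidWithZero M] [NoZeroDivisors M] {a : M} {n : ℕ}
    (h : a ^ n = 0) : a = 0 := by
  by_contra ha
  exact pow_ne_zero n ha h

/-- No element of `T` behaves like a generator of the prime over 47. -/
theorem no_gen (p m v s t : T) (l j i : ℕ) (h1 : 23 ^ l * 47 = p * m)
    (h2 : 23 ^ j * (zT - 2) = p * v) (h3 : 23 ^ i * p = 47 * s + (zT - 2) * t) : False := by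
  obtain ⟨A, B, hP⟩ := nT_form p
  obtain ⟨A2, B2, hM⟩ := nT_form m
  obtain ⟨A3, B3, hV⟩ := nT_form v
  set P : ℤ := A ^ 2 - A * B + 6 * B ^ 2 with hPdef
  set M : ℤ := A2 ^ 2 - A2 * B2 + 6 * B2 ^ 2 with hMdef
  set V : ℤ := A3 ^ 2 - A3 * B3 + 6 * B3 ^ 2 with hVdef
  have hinj : Function.Injective (Int.cast : ℤ → T) := Int.cast_injective
  have e1 : (23 ^ l * 47) ^ 22 = P * M := by
    apply hinj
    have := congrArg nT h1
    rw [nT_mul p m, hP, hM] at this
    have h' := nT_int (23 ^ l * 47)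
    push_cast at h' ⊢
    push_cast at this
    rw [← h', this]
  have e2 : (23 ^ j) ^ 22 * (47 * 178481) = P * V := by
    apply hinj
    have := congrArg nT h2
    rw [nT_mul p v, nT_mul, hP, hV, nT_sub] at this
    have h' := nT_int (23 ^ j)
    push_cast at h' ⊢
    push_cast at this
    rw [h'] at this
    exact this
  -- 47 divides P
  obtain ⟨rho, hrho⟩ := exists_rho
  have h47 : (47 : ZMod 47) = 0 := by decide
  have e3 : rho p = 0 := by
    have := congrArg rho h3
    rw [map_mul, map_add, map_mul, map_mul, map_sub, hrho, map_pow] at this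
    have hh : rho 2 = 2 := map_ofNat rho 2
    have hh2 : rho 47 = 47 := map_ofNat rho 47
    have hh3 : rho 23 = 23 := map_ofNat rho 23
    rw [hh, hh2, hh3, h47, sub_self, zero_mul, zero_mul, add_zero] at this
    have hF : Fact (Nat.Prime 47) := ⟨by norm_num⟩
    have h23 : (23 : ZMod 47) ≠ 0 := h23ne
    rcases mul_eq_zero.mp this with h | h
    · exact absurd (pow_eq_zero_iff_lem h) h23
    · exact h
  have e4 : (47 : ℤ) ∣ P := by
    have h5 : rho (nT p) = 0 := by
      rw [nT, map_prod]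
      apply Finset.prod_eq_zero (i := (1 : ZMod 23)) (by decide)
      rw [tau_one, e3]
    rw [hP, map_intCast] at h5
    exact (ZMod.intCast_zmod_eq_zero_iff_dvd P 47).mp h5
  have hPpos : 0 ≤ P := by
    have : 4 * P = (2 * A - B) ^ 2 + 23 * B ^ 2 := by rw [hPdef]; ring
    nlinarith [sq_nonneg (2 * A - B), sq_nonneg B]
  -- P = 47 * P'
  obtain ⟨P', hP'⟩ := e4
  have e5 : P' ∣ (23 ^ j) ^ 22 * 178481 := by
    refine ⟨V, ?_⟩
    have : 47 * ((23 ^ j) ^ 22 * 178481) = 47 * (P' * V) := by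
      rw [← mul_assoc 47 P' V, ← hP', ← e2]; ring
    linarith
  have h47p : Prime (47 : ℤ) := by norm_num
  have hc1 : ¬ (47 : ℤ) ∣ P' := by
    intro hd
    have := hd.trans e5
    rcases h47p.dvd_or_dvd this with h | h
    · have := h47p.dvd_of_dvd_pow (h47p.dvd_of_dvd_pow h)
      norm_num at this
    · norm_num at h
  have hcop : IsCoprime P' (47 : ℤ) := ((h47p.coprime_iff_not_dvd).mpr hc1).symm
  have e6 : P' ∣ 23 ^ (l * 22) := by
    have h7 : P' ∣ 23 ^ (l * 22) * 47 ^ 22 := by
      refine ⟨47 * M, ?_⟩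
      rw [← mul_assoc P' 47 M, mul_comm P' 47, ← hP', ← e1, mul_pow, ← pow_mul]
    exact (hcop.pow_right (n := 22)).dvd_of_dvd_mul_right h7
  have hP'pos : 0 ≤ P' := by
    by_contra hneg
    push Not at hneg
    have : P < 0 := by rw [hP']; linarith
    linarith
  obtain ⟨n, hn⟩ := Int.eq_ofNat_of_zero_le hP'pos
  rw [hn] at e6
  have e7 : n ∣ 23 ^ (l * 22) := by exact_mod_cast e6
  obtain ⟨k, _, hk⟩ := (Nat.dvd_prime_pow (by norm_num)).mp e7
  apply no_form k A B
  rw [← hPdef, hP', hn, hk]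
  push_cast
  ring

/-- The ring `Z[zeta_23, 1/23]`. -/
abbrev R23 := Localization.Away (23 : T)

theorem ne23 : (23 : T) ≠ 0 := by norm_num

noncomputable instance : IsDomain R23 :=
  IsLocalization.isDomain_localization (powers_le_nonZeroDivisors_of_noZeroDivisors ne23)

instance : IsDedekindDomain R23 :=
  IsLocalization.isDedekindDomain T (powers_le_nonZeroDivisors_of_noZeroDivisors ne23) R23

/-- The root of unity in `R23`. -/
noncomputable def zR : R23 := algebraMap T R23 zT

theorem zR_pow : zR ^ 23 = 1 := by rw [zR, ← map_pow, zT_pow, map_one]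

theorem zR_sum : ∑ i ∈ Finset.range 23, zR ^ i = 0 := by
  have := congrArg (algebraMap T R23) zT_sum
  rw [map_zero, map_sum] at this
  simpa [zR] using this

theorem algMap_inj : Function.Injective (algebraMap T R23) :=
  IsLocalization.injective R23 (powers_le_nonZeroDivisors_of_noZeroDivisors ne23)

instance : CharZero R23 :=
  charZero_of_injective_algebraMap algMap_inj

theorem isUnit23 : IsUnit (23 : R23) := by
  have := IsLocalization.Away.algebraMap_isUnit (S := R23) (23 : T)
  rwa [map_ofNat] at this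

/-- Every element is a fraction with a power of 23 in the denominator. -/
theorem exists_frac (x : R23) : ∃ (n : ℕ) (t : T), 23 ^ n * x = algebraMap T R23 t := by
  obtain ⟨n, t, h⟩ := IsLocalization.Away.surj (23 : T) x
  refine ⟨n, t, ?_⟩
  rw [← h, map_ofNat]
  ring

/-- The ideal `(47, zeta - 2)`. -/
noncomputable def I47 : Ideal R23 := Ideal.span {47, zR - 2}

theorem I47_not_principal (π : R23) : I47 ≠ Ideal.span {π} := by
  intro h
  obtain ⟨n, p, hp⟩ := exists_frac π
  have u23 : ∀ n : ℕ, IsUnit ((23 : R23) ^ n) := fun n => isUnit23.pow n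
  have hI : I47 = Ideal.span {algebraMap T R23 p} := by
    rw [h, ← hp]
    exact (Ideal.span_singleton_mul_left_unit (u23 n) π).symm
  have h47 : (47 : R23) ∈ I47 := Ideal.subset_span (by simp)
  have hz : zR - 2 ∈ I47 := Ideal.subset_span (by simp)
  have hpI : algebraMap T R23 p ∈ I47 := by rw [hI]; exact Ideal.mem_span_singleton_self _
  rw [hI, Ideal.mem_span_singleton'] at h47 hz
  obtain ⟨μ, hμ⟩ := h47
  obtain ⟨ν, hν⟩ := hz
  obtain ⟨l, m, hm⟩ := exists_frac μ
  obtain ⟨j, v, hv⟩ := exists_frac ν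
  rw [I47, Ideal.mem_span_pair] at hpI
  obtain ⟨s, t, hst⟩ := hpI
  obtain ⟨i1, s', hs'⟩ := exists_frac s
  obtain ⟨i2, t', ht'⟩ := exists_frac t
  refine no_gen p m v (23 ^ i2 * s') (23 ^ i1 * t') l j (i1 + i2) ?_ ?_ ?_
  · apply algMap_inj
    rw [map_mul, map_mul, map_pow, map_ofNat, map_ofNat, ← hm, ← hμ]
    ring
  · apply algMap_inj
    rw [map_mul, map_mul, map_pow, map_ofNat, map_sub, map_ofNat, ← hv]
    change 23 ^ j * (zR - 2) = _
    rw [← hν]
    ring
  · apply algMap_inj
    rw [map_mul, map_add, map_mul, map_mul, map_mul, map_mul, map_pow, map_pow, map_pow, map_ofNat,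
      map_ofNat, map_sub, map_ofNat, ← hs', ← ht', ← hst]
    change _ = 47 * _ + (zR - 2) * _
    rw [pow_add]
    ring

end Pool.Agent.H37.CG
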