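import Mathlib
import Pool.Agent.H37.CG.Lose

set_option autoImplicit false

namespace Pool.Agent.H37.CG

def sh0 : List (ℕ × ℕ × ℕ) → List (ℕ × ℕ × ℕ)
  | [] => []
  | (0, _, _) :: l => sh0 l
  | (x + 1, y, z) :: l => (x, y, z) :: sh0 l

def sh1 : List (ℕ × ℕ × ℕ) → List (ℕ × ℕ × ℕ)
  | [] => []
  | (_, 0, _) :: l => sh1 l
  | (x, y + 1, z) :: l => (x, y, z) :: sh1 l

def sh2 : List (ℕ × ℕ × ℕ) → List (ℕ × ℕ × ℕ)
  | [] => []
  | (_, _, 0) :: l => sh2 l
  | (x, y, z + 1) :: l => (x, y, z) :: sh2 l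

theorem mem_sh0 {a b c : ℕ} {l : List (ℕ × ℕ × ℕ)} (h : (a + 1, b, c) ∈ l) :
    (a, b, c) ∈ sh0 l := by
  induction l using sh0.induct with
  | case1 => simp at h
  | case2 y z l ih =>
    simp only [sh0]
    rcases List.mem_cons.1 h with h1 | h1
    · simp at h1
    · exact ih h1
  | case3 x y z l ih =>
    simp only [sh0]
    rcases List.mem_cons.1 h with h1 | h1
    · simp only [Prod.mk.injEq] at h1
      obtain ⟨h1, rfl, rfl⟩ := h1
      obtain rfl : a = x := by omega
      exact List.mem_cons_self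
    · exact List.mem_cons_of_mem _ (ih h1)

theorem mem_sh1 {a b c : ℕ} {l : List (ℕ × ℕ × ℕ)} (h : (a, b + 1, c) ∈ l) :
    (a, b, c) ∈ sh1 l := by
  induction l using sh1.induct with
  | case1 => simp at h
  | case2 x z l ih =>
    simp only [sh1]
    rcases List.mem_cons.1 h with h1 | h1
    · simp at h1
    · exact ih h1
  | case3 x y z l ih =>
    simp only [sh1]
    rcases List.mem_cons.1 h with h1 | h1
    · simp only [Prod.mk.injEq] at h1
      obtain ⟨rfl, h1, rfl⟩ := h1
      obtain rfl : b = y := by omega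
      exact List.mem_cons_self
    · exact List.mem_cons_of_mem _ (ih h1)

theorem mem_sh2 {a b c : ℕ} {l : List (ℕ × ℕ × ℕ)} (h : (a, b, c + 1) ∈ l) :
    (a, b, c) ∈ sh2 l := by
  induction l using sh2.induct with
  | case1 => simp at h
  | case2 x y l ih =>
    simp only [sh2]
    rcases List.mem_cons.1 h with h1 | h1
    · simp at h1
    · exact ih h1
  | case3 x y z l ih =>
    simp only [sh2]
    rcases List.mem_cons.1 h with h1 | h1
    · simp only [Prod.mk.injEq] at h1
      obtain ⟨rfl, rfl, h1⟩ := h1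
      obtain rfl : c = z := by omega
      exact List.mem_cons_self
    · exact List.mem_cons_of_mem _ (ih h1)

def allUpTo (f : ℕ → Bool) : ℕ → Bool
  | 0 => true
  | n + 1 => allUpTo f n && f n

theorem allUpTo_spec {f : ℕ → Bool} {n : ℕ} (h : allUpTo f n = true) {i : ℕ} (hi : i < n) :
    f i = true := by
  induction n with
  | zero => omega
  | succ n ih =>
    simp only [allUpTo, Bool.and_eq_true] at h
    by_cases h1 : i < n
    · exact ih h.1 h1
    · obtain rfl : i = n := by omega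
      exact h.2

def two (a b c : Bool) : Bool := (a && b) || (a && c) || (b && c)

/-- The main loop, given the directions that are good against a null move. -/
def loop (w : List (ℕ × ℕ × ℕ) → Bool) (r : ℕ) (L : List (ℕ × ℕ × ℕ)) (d0 d1 d2 : Bool) :
    Bool :=
  (d0 || d1 || d2) && allUpTo (fun a => (d0 && Nat.beq a 0) || allUpTo (fun b =>
    (d1 && Nat.beq b 0) || allUpTo (fun c => (d2 && Nat.beq c 0) ||
      ((d0 && !(Nat.beq a 1 && Nat.beq b 0 && Nat.beq c 0) &&
        w (sh0 ((a, b, c) :: L))) ||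
      (d1 && !(Nat.beq a 0 && Nat.beq b 1 && Nat.beq c 0) &&
        w (sh1 ((a, b, c) :: L))) ||
      (d2 && !(Nat.beq a 0 && Nat.beq b 0 && Nat.beq c 1) &&
        w (sh2 ((a, b, c) :: L)))))
      (r + 3 - a - b)) (r + 3 - a)) (r + 3)

/-- Decides (soundly) that the walker survives `r` steps. -/
def winB : ℕ → List (ℕ × ℕ × ℕ) → Bool
  | 0, _ => true
  | 1, L => two (!mem3 1 0 0 L) (!mem3 0 1 0 L) (!mem3 0 0 1 L)
  | r + 2, L =>
    match (!mem3 1 0 0 L && winB (r + 1) (sh0 L)), (!mem3 0 1 0 L && winB (r + 1) (sh1 L)),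
      (!mem3 0 0 1 L && winB (r + 1) (sh2 L)) with
    | d0, d1, d2 => loop (winB (r + 1)) r L d0 d1 d2

theorem winB_six : winB 6 [] = true := by decide +kernel

end Pool.Agent.H37.CG
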