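import Mathlib
import Pool.Agent.H37.CG.WinB

set_option autoImplicit false

namespace Pool.Agent.H37.CG

theorem vec_inj {p : V3} {a b c a' b' c' : ℕ} (h : p + vec a b c = p + vec a' b' c') :
    a = a' ∧ b = b' ∧ c = c' := by
  have h1 := add_left_cancel h
  refine ⟨?_, ?_, ?_⟩
  · simpa [vec] using congrFun h1 0
  · simpa [vec] using congrFun h1 1
  · simpa [vec] using congrFun h1 2

theorem vec100 (p : V3) : p + vec 1 0 0 = p + e 0 := by
  congr 1
  ext i; fin_cases i <;> simp [vec, e]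

theorem vec010 (p : V3) : p + vec 0 1 0 = p + e 1 := by
  congr 1
  ext i; fin_cases i <;> simp [vec, e]

theorem vec001 (p : V3) : p + vec 0 0 1 = p + e 2 := by
  congr 1
  ext i; fin_cases i <;> simp [vec, e]

theorem add_e0_vec (p : V3) (a b c : ℕ) : p + e 0 + vec a b c = p + vec (a + 1) b c := by
  rw [vec_e0, add_assoc, add_comm (e 0)]

theorem add_e1_vec (p : V3) (a b c : ℕ) : p + e 1 + vec a b c = p + vec a (b + 1) c := by
  rw [vec_e1, add_assoc, add_comm (e 1)]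

theorem add_e2_vec (p : V3) (a b c : ℕ) : p + e 2 + vec a b c = p + vec a b (c + 1) := by
  rw [vec_e2, add_assoc, add_comm (e 2)]

theorem mem3_false {a b c : ℕ} {l : List (ℕ × ℕ × ℕ)} (h : (!mem3 a b c l) = true) :
    (a, b, c) ∉ l := by
  intro h1
  rw [mem3_iff.2 h1] at h
  exact absurd h (by decide)

/-- Soundness of `w` for height `r`. -/
def Snd (w : List (ℕ × ℕ × ℕ) → Bool) (r : ℕ) : Prop :=
  ∀ (L : List (ℕ × ℕ × ℕ)) (p : V3) (B : Set V3), w L = true →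
    (∀ a b c, 1 ≤ a + b + c → a + b + c ≤ r → p + vec a b c ∈ B → (a, b, c) ∈ L) → ¬ Lose r p B

theorem dir0 {w : List (ℕ × ℕ × ℕ) → Bool} {r : ℕ} (hw : Snd w r) {L : List (ℕ × ℕ × ℕ)}
    {p : V3} {B : Set V3} (h1 : w (sh0 L) = true) (h2 : (1, 0, 0) ∉ L)
    (h3 : ∀ a b c, a + b + c ≤ r → p + vec (a + 1) b c ∈ B → (a + 1, b, c) ∈ L) :
    ¬ (p + e 0 ∈ B ∨ Lose r (p + e 0) B) := by
  rintro (h4 | h4)
  · rw [← vec100] at h4
    exact h2 (h3 0 0 0 (by omega) h4)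
  · refine hw _ _ _ h1 ?_ h4
    intro a b c _ h6 h7
    rw [add_e0_vec] at h7
    exact mem_sh0 (h3 a b c h6 h7)

theorem dir1 {w : List (ℕ × ℕ × ℕ) → Bool} {r : ℕ} (hw : Snd w r) {L : List (ℕ × ℕ × ℕ)}
    {p : V3} {B : Set V3} (h1 : w (sh1 L) = true) (h2 : (0, 1, 0) ∉ L)
    (h3 : ∀ a b c, a + b + c ≤ r → p + vec a (b + 1) c ∈ B → (a, b + 1, c) ∈ L) :
    ¬ (p + e 1 ∈ B ∨ Lose r (p + e 1) B) := by
  rintro (h4 | h4)
  · rw [← vec010] at h4
    exact h2 (h3 0 0 0 (by omega) h4)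
  · refine hw _ _ _ h1 ?_ h4
    intro a b c _ h6 h7
    rw [add_e1_vec] at h7
    exact mem_sh1 (h3 a b c h6 h7)

theorem dir2 {w : List (ℕ × ℕ × ℕ) → Bool} {r : ℕ} (hw : Snd w r) {L : List (ℕ × ℕ × ℕ)}
    {p : V3} {B : Set V3} (h1 : w (sh2 L) = true) (h2 : (0, 0, 1) ∉ L)
    (h3 : ∀ a b c, a + b + c ≤ r → p + vec a b (c + 1) ∈ B → (a, b, c + 1) ∈ L) :
    ¬ (p + e 2 ∈ B ∨ Lose r (p + e 2) B) := by
  rintro (h4 | h4)
  · rw [← vec001] at h4
    exact h2 (h3 0 0 0 (by omega) h4)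
  · refine hw _ _ _ h1 ?_ h4
    intro a b c _ h6 h7
    rw [add_e2_vec] at h7
    exact mem_sh2 (h3 a b c h6 h7)

theorem loop_sound {w : List (ℕ × ℕ × ℕ) → Bool} {r : ℕ} (hw : Snd w (r + 1))
    {L : List (ℕ × ℕ × ℕ)} {d0 d1 d2 : Bool} {p : V3} {B : Set V3}
    (h0 : d0 = true → (1, 0, 0) ∉ L ∧ w (sh0 L) = true)
    (h1 : d1 = true → (0, 1, 0) ∉ L ∧ w (sh1 L) = true)
    (h2 : d2 = true → (0, 0, 1) ∉ L ∧ w (sh2 L) = true)
    (hl : loop w r L d0 d1 d2 = true)
    (hB : ∀ a b c, 1 ≤ a + b + c → a + b + c ≤ r + 2 → p + vec a b c ∈ B → (a, b, c) ∈ L) :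
    ¬ Lose (r + 2) p B := by
  rintro ⟨z, hz⟩
  have k0 : d0 = true → ∃ a b c, a + b + c ≤ r + 1 ∧ z = p + vec (a + 1) b c := by
    intro hd
    by_contra hcon
    push Not at hcon
    refine dir0 hw (h0 hd).2 (h0 hd).1 ?_ (hz 0)
    rintro a b c h3 (h4 | h4)
    · exact absurd h4.symm (hcon a b c h3)
    · exact hB _ _ _ (by omega) (by omega) h4
  have k1 : d1 = true → ∃ a b c, a + b + c ≤ r + 1 ∧ z = p + vec a (b + 1) c := by
    intro hd
    by_contra hcon
    push Not at hcon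
    refine dir1 hw (h1 hd).2 (h1 hd).1 ?_ (hz 1)
    rintro a b c h3 (h4 | h4)
    · exact absurd h4.symm (hcon a b c h3)
    · exact hB _ _ _ (by omega) (by omega) h4
  have k2 : d2 = true → ∃ a b c, a + b + c ≤ r + 1 ∧ z = p + vec a b (c + 1) := by
    intro hd
    by_contra hcon
    push Not at hcon
    refine dir2 hw (h2 hd).2 (h2 hd).1 ?_ (hz 2)
    rintro a b c h3 (h4 | h4)
    · exact absurd h4.symm (hcon a b c h3)
    · exact hB _ _ _ (by omega) (by omega) h4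
  unfold loop at hl
  rw [Bool.and_eq_true] at hl
  obtain ⟨hd, hl⟩ := hl
  obtain ⟨a, b, c, hr, hzz⟩ : ∃ a b c, a + b + c ≤ r + 2 ∧ z = p + vec a b c := by
    rw [Bool.or_eq_true, Bool.or_eq_true] at hd
    rcases hd with (hd | hd) | hd
    · obtain ⟨a, b, c, h3, h4⟩ := k0 hd
      exact ⟨a + 1, b, c, by omega, h4⟩
    · obtain ⟨a, b, c, h3, h4⟩ := k1 hd
      exact ⟨a, b + 1, c, by omega, h4⟩
    · obtain ⟨a, b, c, h3, h4⟩ := k2 hd
      exact ⟨a, b, c + 1, by omega, h4⟩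
  have a0 : d0 = true → a ≠ 0 := by
    intro hd
    obtain ⟨a', b', c', _, h4⟩ := k0 hd
    rw [hzz] at h4
    have := vec_inj h4
    omega
  have a1 : d1 = true → b ≠ 0 := by
    intro hd
    obtain ⟨a', b', c', _, h4⟩ := k1 hd
    rw [hzz] at h4
    have := vec_inj h4
    omega
  have a2 : d2 = true → c ≠ 0 := by
    intro hd
    obtain ⟨a', b', c', _, h4⟩ := k2 hd
    rw [hzz] at h4
    have := vec_inj h4
    omega
  have hl1 := allUpTo_spec hl (i := a) (by omega)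
  rw [Bool.or_eq_true] at hl1
  rcases hl1 with hl1 | hl1
  · rw [Bool.and_eq_true] at hl1
    exact a0 hl1.1 (Nat.eq_of_beq_eq_true hl1.2)
  have hl2 := allUpTo_spec hl1 (i := b) (by omega)
  rw [Bool.or_eq_true] at hl2
  rcases hl2 with hl2 | hl2
  · rw [Bool.and_eq_true] at hl2
    exact a1 hl2.1 (Nat.eq_of_beq_eq_true hl2.2)
  have hl3 := allUpTo_spec hl2 (i := c) (by omega)
  rw [Bool.or_eq_true] at hl3
  rcases hl3 with hl3 | hl3
  · rw [Bool.and_eq_true] at hl3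
    exact a2 hl3.1 (Nat.eq_of_beq_eq_true hl3.2)
  have hB' : ∀ a' b' c', 1 ≤ a' + b' + c' → a' + b' + c' ≤ r + 2 →
      p + vec a' b' c' ∈ insert z B → (a', b', c') ∈ (a, b, c) :: L := by
    rintro a' b' c' h3 h4 (h5 | h5)
    · rw [hzz] at h5
      obtain ⟨rfl, rfl, rfl⟩ := vec_inj h5
      exact List.mem_cons_self
    · exact List.mem_cons_of_mem _ (hB _ _ _ h3 h4 h5)
  rw [Bool.or_eq_true, Bool.or_eq_true] at hl3
  rcases hl3 with (h3 | h3) | h3
  · rw [Bool.and_eq_true, Bool.and_eq_true] at h3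
    obtain ⟨⟨h4, h5⟩, h6⟩ := h3
    refine dir0 hw h6 ?_ (fun a' b' c' h7 h8 => hB' _ _ _ (by omega) (by omega) h8) (hz 0)
    intro h7
    rcases List.mem_cons.1 h7 with h8 | h8
    · simp only [Prod.mk.injEq] at h8
      obtain ⟨rfl, rfl, rfl⟩ := h8
      exact absurd h5 (by decide)
    · exact (h0 h4).1 h8
  · rw [Bool.and_eq_true, Bool.and_eq_true] at h3
    obtain ⟨⟨h4, h5⟩, h6⟩ := h3
    refine dir1 hw h6 ?_ (fun a' b' c' h7 h8 => hB' _ _ _ (by omega) (by omega) h8) (hz 1)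
    intro h7
    rcases List.mem_cons.1 h7 with h8 | h8
    · simp only [Prod.mk.injEq] at h8
      obtain ⟨rfl, rfl, rfl⟩ := h8
      exact absurd h5 (by decide)
    · exact (h1 h4).1 h8
  · rw [Bool.and_eq_true, Bool.and_eq_true] at h3
    obtain ⟨⟨h4, h5⟩, h6⟩ := h3
    refine dir2 hw h6 ?_ (fun a' b' c' h7 h8 => hB' _ _ _ (by omega) (by omega) h8) (hz 2)
    intro h7
    rcases List.mem_cons.1 h7 with h8 | h8
    · simp only [Prod.mk.injEq] at h8
      obtain ⟨rfl, rfl, rfl⟩ := h8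
      exact absurd h5 (by decide)
    · exact (h2 h4).1 h8

theorem winB_one_sound : Snd (winB 1) 1 := by
  intro L p B h hB
  rintro ⟨z, hz⟩
  have hz' : ∀ j, p + e j ∈ insert z B := fun j => (hz j).resolve_right (fun h => h)
  have n0 : (!mem3 1 0 0 L) = true → p + e 0 = z := by
    intro h1
    rcases hz' 0 with h2 | h2
    · exact h2
    · rw [← vec100] at h2
      exact absurd (hB _ _ _ (by omega) (by omega) h2) (mem3_false h1)
  have n1 : (!mem3 0 1 0 L) = true → p + e 1 = z := by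
    intro h1
    rcases hz' 1 with h2 | h2
    · exact h2
    · rw [← vec010] at h2
      exact absurd (hB _ _ _ (by omega) (by omega) h2) (mem3_false h1)
  have n2 : (!mem3 0 0 1 L) = true → p + e 2 = z := by
    intro h1
    rcases hz' 2 with h2 | h2
    · exact h2
    · rw [← vec001] at h2
      exact absurd (hB _ _ _ (by omega) (by omega) h2) (mem3_false h1)
  have hne : ∀ i j : Fin 3, i ≠ j → p + e i = z → p + e j = z → False := by
    intro i j hij h1 h2
    have h3 := add_left_cancel (h1.trans h2.symm)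
    have h4 := congrFun h3 i
    rw [e, e, Pi.single_eq_same, Pi.single_eq_of_ne hij] at h4
    exact one_ne_zero h4
  simp only [winB, two, Bool.or_eq_true, Bool.and_eq_true] at h
  rcases h with (⟨h1, h2⟩ | ⟨h1, h2⟩) | ⟨h1, h2⟩
  · exact hne 0 1 (by decide) (n0 h1) (n1 h2)
  · exact hne 0 2 (by decide) (n0 h1) (n2 h2)
  · exact hne 1 2 (by decide) (n1 h1) (n2 h2)

theorem winB_sound (r : ℕ) : Snd (winB (r + 1)) (r + 1) := by
  induction r with
  | zero => exact winB_one_sound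
  | succ r ih =>
    intro L p B h hB
    simp only [winB] at h
    refine loop_sound ih ?_ ?_ ?_ h hB
    · intro hd
      rw [Bool.and_eq_true] at hd
      exact ⟨mem3_false hd.1, hd.2⟩
    · intro hd
      rw [Bool.and_eq_true] at hd
      exact ⟨mem3_false hd.1, hd.2⟩
    · intro hd
      rw [Bool.and_eq_true] at hd
      exact ⟨mem3_false hd.1, hd.2⟩

theorem not_lose_six (p : V3) : ¬ Lose 6 p ∅ :=
  winB_sound 5 [] p ∅ winB_six (by intro a b c _ _ h; exact h.elim)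

end Pool.Agent.H37.CG
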