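import Mathlib
import Pool.Agent.H37.CG.Breaker
import Pool.Agent.H37.CG.WinSound

set_option autoImplicit false

namespace Pool.Agent.H37.CG

variable {n : ℕ}

/-- The claimed points. -/
def Cl (h : List (Q 3 n)) : Set V3 := {x | ∃ p ∈ h, p.1 = x}

theorem mem_Cl {h : List (Q 3 n)} {p : Q 3 n} : p.1 ∈ Cl h ↔ p ∈ h := by
  constructor
  · rintro ⟨q, hq, h1⟩
    rw [Subtype.ext h1] at hq
    exact hq
  · intro h1
    exact ⟨p, h1, rfl⟩

theorem Cl_append (h : List (Q 3 n)) (p : Q 3 n) : Cl (h ++ [p]) = insert p.1 (Cl h) := by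
  ext x
  simp only [Cl, Set.mem_ofPred_eq, List.mem_append, List.mem_singleton, Set.mem_insert_iff]
  constructor
  · rintro ⟨q, h1 | rfl, rfl⟩
    · exact Or.inr ⟨q, h1, rfl⟩
    · exact Or.inl rfl
  · rintro (rfl | ⟨q, h1, rfl⟩)
    · exact ⟨p, Or.inr rfl, rfl⟩
    · exact ⟨q, Or.inl h1, rfl⟩

theorem not_lose_insert_self {r : ℕ} {y : V3} {B : Set V3} (h : ¬ Lose r y B) :
    ¬ Lose r y (insert y B) := by
  intro h1
  refine h (h1.agree ?_)
  rintro u hu (h2 | h2)
  · rw [h2] at hu
    exact absurd hu (lt_irrefl _)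
  · exact h2

/-- Good next moves of Maker. -/
def Nxt (r : ℕ) (h : List (Q 3 n)) (y : Q 3 n) : Prop :=
  y ∉ h ∧ lev y.1 ≤ r ∧ ¬ Lose (r - lev y.1) y.1 (Cl h) ∧
    ((h = [] ∧ y.1 = 0) ∨ ∃ h' x b, h = h' ++ [x, b] ∧ ∃ j, y.1 = x.1 + e j)

open Classical in
/-- Maker's strategy. -/
noncomputable def strat (r : ℕ) (h : List (Q 3 n)) : Q 3 n :=
  if h1 : ∃ y, Nxt r h y then h1.choose
  else if h2 : ∃ p, p ∉ h then h2.choose
  else ⟨0, by simp⟩

theorem strat_nxt {r : ℕ} {h : List (Q 3 n)} (h1 : ∃ y, Nxt r h y) : Nxt r h (strat r h) := by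
  unfold strat
  rw [dif_pos h1]
  exact h1.choose_spec

theorem strat_legal (r : ℕ) : Legal (strat (n := n) r) := by
  intro h h2
  by_cases h1 : ∃ y, Nxt r h y
  · exact (strat_nxt h1).1
  · unfold strat
    rw [dif_neg h1, dif_pos h2]
    exact h2.choose_spec

theorem maker_invariant {r : ℕ} (hr : r ≤ n) (hr6 : r ≤ 6) {w : List (Q 3 n)}
    (hw : IsPlay (strat r) w) (i : ℕ) (hi : i ≤ r) :
    ∃ hlt : 2 * i < w.length, lev (w[2 * i]).1 = i ∧
      ¬ Lose (r - i) (w[2 * i]).1 (Cl (w.take (2 * i + 1))) ∧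
      ∃ c : List (Q 3 n), c.Sublist (makerMoves (w.take (2 * i))) ∧
        (c ++ [w[2 * i]]).Pairwise (· < ·) ∧ c.length = i := by
  obtain ⟨hnd, hall, hcons⟩ := hw
  induction i with
  | zero =>
    have hlev0 : lev (0 : V3) = 0 := by simp [lev]
    have hex : ∃ y : Q 3 n, Nxt r [] y := by
      refine ⟨⟨0, by simp⟩, by simp, by rw [hlev0]; omega, ?_, Or.inl ⟨rfl, rfl⟩⟩
      rw [hlev0]
      intro h1
      have h2 : Cl ([] : List (Q 3 n)) = ∅ := by
        ext x; simp [Cl]
      rw [h2] at h1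
      exact not_lose_six 0 (h1.mono (by omega))
    have hlt : 2 * 0 < w.length := List.length_pos_of_mem (hall ⟨0, by simp⟩)
    refine ⟨hlt, ?_⟩
    have h1 := hcons 0 hlt
    rw [List.getElem?_eq_getElem hlt] at h1
    have h2 : w[2 * 0] = strat r [] := by simpa using h1
    have h3 := strat_nxt hex
    rw [← h2] at h3
    obtain ⟨_, _, h4, h5⟩ := h3
    have h6 : (w[2 * 0]).1 = 0 := by
      rcases h5 with ⟨_, h5⟩ | ⟨h', x, b, h5, _⟩
      · exact h5
      · have := congrArg List.length h5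
        simp at this
    refine ⟨by rw [h6, hlev0], ?_, [], by simp, by simp, rfl⟩
    have h7 : w.take (2 * 0 + 1) = [] ++ [w[2 * 0]] := by
      rw [List.take_succ_eq_append_getElem hlt]
      simp
    rw [h7, Cl_append]
    refine not_lose_insert_self ?_
    rw [h6, hlev0] at h4
    rw [h6]
    exact h4
  | succ i ih =>
    obtain ⟨hlt, hlev, hnl, c, hc1, hc2, hc3⟩ := ih (by omega)
    set m := w[2 * i] with hm
    obtain ⟨k, hk⟩ : ∃ k, r - i = k + 1 := ⟨r - i - 1, by omega⟩
    have hk' : r - (i + 1) = k := by omega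
    rw [hk] at hnl
    have hstep : ∀ z : V3, ∃ j, m.1 + e j ∉ insert z (Cl (w.take (2 * i + 1))) ∧
        ¬ Lose k (m.1 + e j) (insert z (Cl (w.take (2 * i + 1)))) := by
      intro z
      by_contra hcon
      push Not at hcon
      exact hnl ⟨z, fun j => or_iff_not_imp_left.2 (hcon j)⟩
    have hin : ∀ j, ∑ l, (m.1 + e j) l ≤ n := by
      intro j
      have := lev_add_e m.1 j
      unfold lev at this
      unfold lev at hlev
      omega
    have hlt1 : 2 * i + 1 < w.length := by
      by_contra hcon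
      obtain ⟨j, hj, _⟩ := hstep m.1
      have h1 : w.take (2 * i + 1) = w := List.take_of_length_le (by omega)
      rw [h1] at hj
      exact hj (Or.inr ⟨⟨m.1 + e j, hin j⟩, hall _, rfl⟩)
    set b := w[2 * i + 1] with hb
    have ht1 : w.take (2 * i + 1) = w.take (2 * i) ++ [m] :=
      List.take_succ_eq_append_getElem hlt
    have ht2 : w.take (2 * i + 2) = w.take (2 * i + 1) ++ [b] :=
      List.take_succ_eq_append_getElem hlt1
    have ht2' : w.take (2 * i + 2) = w.take (2 * i) ++ [m, b] := by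
      rw [ht2, ht1]; simp
    have hCl : Cl (w.take (2 * i + 2)) = insert b.1 (Cl (w.take (2 * i + 1))) := by
      rw [ht2, Cl_append]
    have hex : ∃ y, Nxt r (w.take (2 * (i + 1))) y := by
      obtain ⟨j, hj1, hj2⟩ := hstep b.1
      rw [← hCl] at hj1 hj2
      have hl : lev (m.1 + e j) = i + 1 := by rw [lev_add_e, hlev]
      refine ⟨⟨m.1 + e j, hin j⟩, ?_, by rw [hl]; exact hi, ?_,
        Or.inr ⟨w.take (2 * i), m, b, ht2', j, rfl⟩⟩
      · intro h1
        exact hj1 (mem_Cl.2 h1)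
      · rw [hl, hk']
        exact hj2
    have hn := strat_nxt hex
    set y := strat r (w.take (2 * (i + 1))) with hy
    obtain ⟨hy1, hy2, hy3, hy4⟩ := hn
    have hlt2 : 2 * (i + 1) < w.length := by
      by_contra hcon
      have h1 : w.take (2 * (i + 1)) = w := List.take_of_length_le (by omega)
      rw [h1] at hy1
      exact hy1 (hall y)
    refine ⟨hlt2, ?_⟩
    have h1 := hcons (i + 1) hlt2
    rw [List.getElem?_eq_getElem hlt2] at h1
    have h2 : w[2 * (i + 1)] = y := by simpa using h1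
    rw [h2]
    obtain ⟨j, hj⟩ : ∃ j, y.1 = m.1 + e j := by
      rcases hy4 with ⟨h3, _⟩ | ⟨h', x, b', h3, j, h4⟩
      · have h5 : 2 * i + 2 = 2 * (i + 1) := by ring
        rw [← h5, ht2'] at h3
        simp at h3
      · have h5 : 2 * i + 2 = 2 * (i + 1) := by ring
        rw [← h5, ht2'] at h3
        obtain ⟨_, h6⟩ := List.append_inj' h3 rfl
        simp only [List.cons.injEq, and_true] at h6
        exact ⟨j, by rw [h4, h6.1]⟩
    have hyl : lev y.1 = i + 1 := by rw [hj, lev_add_e, hlev]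
    refine ⟨hyl, ?_, c ++ [m], ?_, ?_, by simp [hc3]⟩
    · have h3 : w.take (2 * (i + 1) + 1) = w.take (2 * (i + 1)) ++ [y] := by
        rw [List.take_succ_eq_append_getElem hlt2, h2]
      rw [h3, Cl_append]
      refine not_lose_insert_self ?_
      rw [hyl] at hy3
      exact hy3
    · have h3 : 2 * (i + 1) = 2 * i + 2 := by ring
      rw [h3, ht2', makerMoves_two]
      · exact hc1.append (List.Sublist.refl _)
      · rw [List.length_take]
        rw [min_eq_left hlt.le]
        exact even_two_mul i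
    · have hmy : m < y := by
        have h3 : m.1 < y.1 := by rw [hj]; exact lt_add_e _ _
        exact h3
      rw [List.pairwise_append]
      refine ⟨hc2, by simp, ?_⟩
      intro a ha b' hb'
      rw [List.mem_singleton] at hb'
      rw [hb']
      rcases List.mem_append.1 ha with h3 | h3
      · exact lt_trans ((List.pairwise_append.1 hc2).2.2 a h3 m (by simp)) hmy
      · rw [List.mem_singleton] at h3
        rw [h3]
        exact hmy

theorem lower {r : ℕ} (hr : r ≤ n) (hr6 : r ≤ 6) : SeqGuarantee (Q 3 n) (r + 1) := by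
  refine ⟨strat r, strat_legal r, ?_⟩
  intro w hw
  obtain ⟨hlt, _, _, c, hc1, hc2, hc3⟩ := maker_invariant hr hr6 hw r le_rfl
  refine ⟨c ++ [w[2 * r]], ?_, hc2, by simp [hc3]⟩
  have h1 : w = w.take (2 * r) ++ w.drop (2 * r) := (List.take_append_drop _ _).symm
  have h2 : w.drop (2 * r) = w[2 * r] :: w.drop (2 * r + 1) := List.drop_eq_getElem_cons hlt
  have h3 : makerMoves w = makerMoves (w.take (2 * r)) ++ makerMoves (w.drop (2 * r)) := by
    conv_lhs => rw [h1]
    refine makerMoves_append _ _ ?_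
    rw [List.length_take, min_eq_left hlt.le]
    exact even_two_mul r
  rw [h3]
  refine hc1.append ?_
  rw [h2]
  cases w.drop (2 * r + 1) with
  | nil => simp [makerMoves]
  | cons a l => simp [makerMoves]

end Pool.Agent.H37.CG
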