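import Mathlib
import Pool.Agent.H37.CG.Main
import Pool.Agent.H37.CG.K0

/-! Class group part of MP_5c3080_gt, (D5): the idempotent matrix over the group ring of Z/23 and
its image over `Z[zeta_23, 1/23]`, which is not stably free. -/

namespace Pool.Agent.H37.CG

open scoped nonZeroDivisors

/-- The quotient of `X ^ 23 - 2 ^ 23` by `X - 2`. -/
def qq {A : Type*} [CommRing A] (g : A) : A := ∑ i ∈ Finset.range 23, g ^ i * 2 ^ (22 - i)

theorem qq_mul {A : Type*} [CommRing A] (g : A) (hg : g ^ 23 = 1) :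
    qq g * (g - 2) = -(47 * 178481) := by
  have h := (Commute.all g 2).geom_sum₂_mul 23
  rw [hg] at h
  have h2 : qq g = ∑ i ∈ Finset.range 23, g ^ i * 2 ^ (23 - 1 - i) := rfl
  rw [h2, h]
  norm_num

/-- The idempotent matrix. -/
def eM {A : Type*} [CommRing A] (g : A) : Matrix (Fin 2) (Fin 2) A :=
  !![47 * (-56962), -56962 * (g - 2); -15 * qq g, 15 * 178481]

theorem eM_idem {A : Type*} [CommRing A] (g : A) (hg : g ^ 23 = 1) : eM g * eM g = eM g := by
  have h := qq_mul g hg
  have e1 : (47 * (-56962) : A) * (47 * (-56962)) + -56962 * (g - 2) * (-15 * qq g) =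
      47 * (-56962) := by linear_combination (56962 * 15 : A) * h
  have e2 : (47 * (-56962) : A) * (-56962 * (g - 2)) + -56962 * (g - 2) * (15 * 178481) =
      -56962 * (g - 2) := by ring
  have e3 : (-15 * qq g : A) * (47 * (-56962)) + 15 * 178481 * (-15 * qq g) = -15 * qq g := by ring
  have e4 : (-15 * qq g : A) * (-56962 * (g - 2)) + 15 * 178481 * (15 * 178481) =
      15 * 178481 := by linear_combination (56962 * 15 : A) * h
  rw [eM, Matrix.mul_fin_two, e1, e2, e3, e4]

theorem eM_map {A B : Type*} [CommRing A] [CommRing B] (f : A →+* B) (g : A) :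
    (eM g).map f = eM (f g) := by
  ext i j
  fin_cases i <;> fin_cases j <;> simp [eM, qq, map_sum, map_ofNat]

/-- The evaluation of the group ring at the root of unity. -/
noncomputable def phi : MonoidAlgebra ℤ (Multiplicative (ZMod 23)) →+* R23 :=
  (MonoidAlgebra.lift ℤ R23 (Multiplicative (ZMod 23))
    { toFun := fun x => zR ^ (Multiplicative.toAdd x).val
      map_one' := by simp
      map_mul' := by
        intro x y
        rw [toAdd_mul, ZMod.val_add, ← pow_eq_pow_mod _ zR_pow, pow_add] } :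
    MonoidAlgebra ℤ (Multiplicative (ZMod 23)) →ₐ[ℤ] R23).toRingHom

theorem phi_of (x : Multiplicative (ZMod 23)) :
    phi (MonoidAlgebra.of ℤ _ x) = zR ^ (Multiplicative.toAdd x).val := by
  simp [phi]

theorem phi_gen : phi (MonoidAlgebra.of ℤ _ (Multiplicative.ofAdd (1 : ZMod 23))) = zR := by
  rw [phi_of]
  change zR ^ (1 : ZMod 23).val = zR
  have : (1 : ZMod 23).val = 1 := by decide
  rw [this, pow_one]

/-- The image of the idempotent matrix. -/
noncomputable def QR : Submodule R23 (Fin 2 → R23) := LinearMap.range (eM zR).mulVecLin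

/-- The map onto the ideal `(47, zeta - 2)`. -/
noncomputable def TI : (Fin 2 → R23) →ₗ[R23] R23 :=
  (47 : R23) • LinearMap.proj 0 + (zR - 2) • LinearMap.proj 1

theorem TI_apply (v : Fin 2 → R23) : TI v = 47 * v 0 + (zR - 2) * v 1 := rfl

theorem range_TI : LinearMap.range TI = I47 := by
  ext x
  rw [LinearMap.mem_range, I47, Ideal.mem_span_pair]
  constructor
  · rintro ⟨v, rfl⟩
    exact ⟨v 0, v 1, by rw [TI_apply]; ring⟩
  · rintro ⟨a, b, rfl⟩
    exact ⟨![a, b], by rw [TI_apply]; simp; ring⟩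

theorem eM_gen0 {A : Type*} [CommRing A] (g : A) (v : Fin 2 → A) :
    (eM g).mulVecLin v 0 = -56962 * (47 * v 0 + (g - 2) * v 1) := by
  simp only [eM, Matrix.mulVecLin_apply, Matrix.mulVec, dotProduct, Fin.sum_univ_two,
    Matrix.of_apply, Matrix.cons_val_zero, Matrix.cons_val_one]
  ring

theorem eM_gen1 {A : Type*} [CommRing A] (g : A) (v : Fin 2 → A) :
    (eM g).mulVecLin v 1 = -15 * (qq g * v 0 - 178481 * v 1) := by
  simp only [eM, Matrix.mulVecLin_apply, Matrix.mulVec, dotProduct, Fin.sum_univ_two,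
    Matrix.of_apply, Matrix.cons_val_zero, Matrix.cons_val_one]
  ring

theorem eM_apply0 (v : Fin 2 → R23) : (eM zR).mulVecLin v 0 = -56962 * TI v :=
  eM_gen0 zR v

theorem eM_apply1 (v : Fin 2 → R23) :
    (eM zR).mulVecLin v 1 = -15 * (qq zR * v 0 - 178481 * v 1) :=
  eM_gen1 zR v

theorem ker_eq : LinearMap.ker (eM zR).mulVecLin = LinearMap.ker TI := by
  have hq := qq_mul zR zR_pow
  ext v
  rw [LinearMap.mem_ker, LinearMap.mem_ker]
  constructor
  · intro h
    have h0 := congrFun h 0
    rw [eM_apply0] at h0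
    have : (-56962 : R23) ≠ 0 := by norm_num
    rcases mul_eq_zero.mp h0 with h1 | h1
    · exact absurd h1 this
    · exact h1
  · intro h
    have h1 : 47 * (qq zR * v 0 - 178481 * v 1) = 0 := by
      have h2 := h
      rw [TI_apply] at h2
      linear_combination (qq zR) * h2 - v 1 * hq
    have h3 : qq zR * v 0 - 178481 * v 1 = 0 := by
      rcases mul_eq_zero.mp h1 with h4 | h4
      · exact absurd h4 (by norm_num)
      · exact h4
    ext i
    fin_cases i
    · change (eM zR).mulVecLin v 0 = 0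
      rw [eM_apply0, h, mul_zero]
    · change (eM zR).mulVecLin v 1 = 0
      rw [eM_apply1, h3, mul_zero]

/-- The image of the idempotent matrix is isomorphic to the ideal `(47, zeta - 2)`. -/
noncomputable def QR_equiv : QR ≃ₗ[R23] I47 :=
  (LinearMap.quotKerEquivRange (eM zR).mulVecLin).symm ≪≫ₗ
    (Submodule.quotEquivOfEq _ _ ker_eq) ≪≫ₗ (LinearMap.quotKerEquivRange TI) ≪≫ₗ
    (LinearEquiv.ofEq _ _ range_TI)

/-- Nonzero ideals of a Dedekind domain are invertible modules. -/
theorem invertible_ideal {R : Type*} [CommRing R] [IsDedekindDomain R] (I : Ideal R) (hI : I ≠ ⊥) :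
    Module.Invertible R I := by
  let K := FractionRing R
  let J : FractionalIdeal R⁰ K := (I : FractionalIdeal R⁰ K)
  have hJ : J ≠ 0 := FractionalIdeal.coeIdeal_ne_zero.mpr hI
  have h1 : (J : Submodule R K) * ((J⁻¹ : FractionalIdeal R⁰ K) : Submodule R K) = 1 := by
    rw [← FractionalIdeal.coe_mul, mul_inv_cancel₀ hJ, FractionalIdeal.coe_one]
  let u : (Submodule R K)ˣ := ⟨J, (J⁻¹ : FractionalIdeal R⁰ K), h1, by rw [mul_comm]; exact h1⟩
  have h2 : Module.Invertible R (u : Submodule R K) :=
    Module.Invertible.left (Submodule.tensorInvEquiv u)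
  have e : I ≃ₗ[R] (u : Submodule R K) :=
    Submodule.equivMapOfInjective (Algebra.linearMap R K) (IsFractionRing.injective R K) I
  exact Module.Invertible.congr e.symm

theorem I47_ne_bot : I47 ≠ ⊥ := by
  intro h
  have : (47 : R23) ∈ I47 := Ideal.subset_span (by simp)
  rw [h] at this
  exact absurd ((Submodule.mem_bot R23).mp this) (by norm_num)

theorem I47_not_free : ¬ Module.Free R23 I47 := by
  intro hfree
  have := invertible_ideal I47 I47_ne_bot
  obtain ⟨e⟩ := Module.Invertible.free_iff_linearEquiv.mp hfree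
  apply I47_not_principal (e.symm 1 : I47).1
  apply le_antisymm
  · intro x hx
    rw [Ideal.mem_span_singleton']
    refine ⟨e ⟨x, hx⟩, ?_⟩
    have h := (e.symm.map_smul (e ⟨x, hx⟩) 1)
    rw [smul_eq_mul, mul_one, LinearEquiv.symm_apply_apply] at h
    exact (congrArg Subtype.val h).symm
  · rw [Ideal.span_singleton_le_iff_mem]
    exact (e.symm 1).2

/-- `Q_R` is not stably free. -/
theorem QR_not_stably_free (a b : ℕ) :
    ¬ Nonempty ((QR × (Fin a → R23)) ≃ₗ[R23] (Fin b → R23)) := by
  rintro ⟨e⟩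
  apply I47_not_free
  have := invertible_ideal I47 I47_ne_bot
  have h1 : Module.Free R23 (QR × (Fin a → R23)) := Module.Free.of_equiv e.symm
  have h2 : Module.IsStablyFree R23 QR := Module.IsStablyFree.of_free_prod R23 QR (Fin a → R23)
  have h3 : Module.IsStablyFree R23 I47 := Module.IsStablyFree.equiv QR_equiv
  exact Module.free_of_isStablyFree_of_invertible R23 I47

/-- The class of `Q_R` in the reduced group K_0 is not zero. -/
theorem cls_QR_ne : cls (R := R23) QR ≠ 0 := by
  intro h
  have : Module.Projective R23 QR := proj_sub 2 QR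
  obtain ⟨a, b, ⟨e⟩⟩ := cls_eq_zero (R := R23) QR h
  exact QR_not_stably_free a (0 + b) ⟨e ≪≫ₗ finAdd 0 b⟩

theorem cls_I47_ne : cls (R := R23) I47 ≠ 0 := by
  rw [← cls_congr (R := R23) QR_equiv]
  exact cls_QR_ne

/-- `zeta - 1` is a unit. -/
theorem isUnit_sub_one : IsUnit (zR - 1) := by
  -- `23 = prod (1 - zeta ^ c)` is divisible by `1 - zeta`
  have h := zR_sum
  have h1 : (zR - 1) ∣ 23 := by
    have h2 : ∀ i : ℕ, (zR - 1) ∣ zR ^ i - 1 := fun i => sub_one_dvd_pow_sub_one zR i
    have h3 : (zR - 1) ∣ ∑ i ∈ Finset.range 23, (zR ^ i - 1) := Finset.dvd_sum fun i _ => h2 i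
    rw [Finset.sum_sub_distrib, h] at h3
    simpa using h3
  exact isUnit_of_dvd_unit h1 isUnit23

end Pool.Agent.H37.CG
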