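import Mathlib
import Pool.Agent.H4.CU.Alg
import Pool.Agent.H37.CG.QR

/-! MP_5c3080_gt, the algebra of step (3): the Euler class of the homology of the complex with
differential `(1 - t) d`. -/

namespace Pool.Agent.H37.CG

open Pool.Agent.H4.CU (Cx EulerFn Good Hr Fam)

noncomputable section

section general

set_option linter.unusedSectionVars false

variable {R : Type} [CommRing R] [IsDedekindDomain R]

/-- The Euler function given by the reduced group K_0. -/
def EFn (R : Type) [CommRing R] [IsDedekindDomain R] : EulerFn R (K0t R) where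
  cl M _ _ := by
    classical
    exact if h : Module.Finite R M then cls (R := R) M else 0
  iso M N _ _ _ _ e := by
    by_cases h : Module.Finite R M
    · have h' : Module.Finite R N := Module.Finite.equiv e
      rw [dif_pos h, dif_pos h']
      exact cls_congr e
    · have h' : ¬ Module.Finite R N := fun h' => h (Module.Finite.equiv e.symm)
      rw [dif_neg h, dif_neg h']
  add M _ _ _ N := by
    have h1 : Module.Finite R M := inferInstance
    have h2 : Module.Finite R N := inferInstance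
    have h3 : Module.Finite R (M ⧸ N) := inferInstance
    rw [dif_pos h1, dif_pos h2, dif_pos h3]
    exact cls_exact (R := R) N.subtype N.mkQ (Submodule.subtype_injective _) (by
      rw [LinearMap.exact_iff, Submodule.ker_mkQ, Submodule.range_subtype])
      (Submodule.mkQ_surjective _)
  self := by
    have h1 : Module.Finite R R := inferInstance
    rw [dif_pos h1]
    exact cls_free R

theorem EFn_cl (M : Type) [AddCommGroup M] [Module R M] [h : Module.Finite R M] :
    (EFn R).cl M = cls (R := R) M := by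
  classical
  change (if h : Module.Finite R M then cls (R := R) M else 0) = _
  rw [dif_pos h]

variable {M : Type} [AddCommGroup M] [Module R M]

/-- The quotient of two submodules. -/
abbrev Qt (X Y : Submodule R M) : Type := Y ⧸ X.submoduleOf Y

/-- The class of the quotient of two submodules. -/
def qc (X Y : Submodule R M) : K0t R := (EFn R).cl (Qt X Y)

theorem chain_maps (X Y Z : Submodule R M) (h1 : X ≤ Y) (h2 : Y ≤ Z) :
    ∃ (f : Qt X Y →ₗ[R] Qt X Z) (g : Qt X Z →ₗ[R] Qt Y Z), Function.Injective f ∧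
      Function.Exact f g ∧ Function.Surjective g := by
  let f : Qt X Y →ₗ[R] Qt X Z := Submodule.mapQ _ _ (Submodule.inclusion h2) (fun x hx => hx)
  let g : Qt X Z →ₗ[R] Qt Y Z := Submodule.mapQ _ _ LinearMap.id (fun x hx => h1 hx)
  refine ⟨f, g, ?_, ?_, ?_⟩
  · rw [injective_iff_map_eq_zero]
    intro a ha
    obtain ⟨a, rfl⟩ := Submodule.mkQ_surjective _ a
    change Submodule.Quotient.mk (Submodule.inclusion h2 a) = 0 at ha
    rw [Submodule.Quotient.mk_eq_zero] at ha
    change Submodule.Quotient.mk a = 0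
    rw [Submodule.Quotient.mk_eq_zero]
    exact ha
  · intro b
    obtain ⟨b, rfl⟩ := Submodule.mkQ_surjective _ b
    constructor
    · intro hb
      change Submodule.Quotient.mk b = 0 at hb
      rw [Submodule.Quotient.mk_eq_zero] at hb
      exact ⟨Submodule.Quotient.mk ⟨b.1, hb⟩, rfl⟩
    · rintro ⟨a, ha⟩
      obtain ⟨a, rfl⟩ := Submodule.mkQ_surjective _ a
      rw [← ha]
      change (Submodule.Quotient.mk (Submodule.inclusion h2 a) : Qt Y Z) = 0
      rw [Submodule.Quotient.mk_eq_zero]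
      exact a.2
  · intro b
    obtain ⟨b, rfl⟩ := Submodule.mkQ_surjective _ b
    exact ⟨Submodule.Quotient.mk b, rfl⟩

theorem qc_congr {X X' Y Y' : Submodule R M} (hx : X = X') (hy : Y = Y') :
    (EFn R).cl (Qt X Y) = qc X' Y' ∧ (Module.Finite R (Qt X Y) → Module.Finite R (Qt X' Y')) := by
  subst hx hy
  exact ⟨rfl, id⟩

/-- Additivity along a chain. -/
theorem qc_chain (X Y Z : Submodule R M) (h1 : X ≤ Y) (h2 : Y ≤ Z) (hf : Module.Finite R (Qt X Z)) :
    Module.Finite R (Qt X Y) ∧ Module.Finite R (Qt Y Z) ∧ qc X Z = qc X Y + qc Y Z := by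
  obtain ⟨f, g, hf1, hfg, hg⟩ := chain_maps X Y Z h1 h2
  have i1 : Module.Finite R (Qt X Y) := Module.Finite.of_injective f hf1
  have i2 : Module.Finite R (Qt Y Z) := Module.Finite.of_surjective g hg
  refine ⟨i1, i2, ?_⟩
  rw [qc, qc, qc, EFn_cl, EFn_cl, EFn_cl]
  exact cls_exact (R := R) f g hf1 hfg hg

/-- An injective map does not change the class. -/
theorem qt_map (X Y : Submodule R M) (s : M →ₗ[R] M) (hs : Function.Injective s) (h : X ≤ Y) :
    Nonempty (Qt X Y ≃ₗ[R] Qt (X.map s) (Y.map s)) := by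
  let e : Y ≃ₗ[R] (Y.map s : Submodule R M) := Submodule.equivMapOfInjective s hs Y
  refine ⟨Submodule.Quotient.equiv _ _ e ?_⟩
  ext y
  constructor
  · rintro ⟨x, hx, rfl⟩
    exact ⟨x.1, hx, rfl⟩
  · intro hy
    obtain ⟨x, hx, hxy⟩ := hy
    exact ⟨⟨x, h hx⟩, hx, Subtype.ext hxy⟩

theorem qc_map (X Y : Submodule R M) (s : M →ₗ[R] M) (hs : Function.Injective s) (h : X ≤ Y) :
    qc (X.map s) (Y.map s) = qc X Y := by
  obtain ⟨e⟩ := qt_map X Y s hs h
  exact ((EFn R).iso _ _ e).symm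

/-- The key step: `s Z ≤ B ≤ Z`, then `B/sB` and `Z/sZ` have the same class. -/
theorem qc_key (B Z : Submodule R M) (s : M →ₗ[R] M) (hs : Function.Injective s) (hBZ : B ≤ Z)
    (hsZ : Z.map s ≤ B) (h1 : Module.Finite R (Qt (B.map s) B))
    (h2 : Module.Finite R (Qt (Z.map s) Z)) : qc (B.map s) B = qc (Z.map s) Z := by
  have h3 := (qc_chain (B.map s) (Z.map s) B (Submodule.map_mono hBZ) hsZ h1).2.2
  have h4 := (qc_chain (Z.map s) B Z hsZ hBZ h2).2.2
  rw [h3, h4, qc_map B Z s hs hBZ, add_comm]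

/-- The exact sequence of the differential. -/
theorem qc_diff {M' : Type} [AddCommGroup M'] [Module R M'] (D : M →ₗ[R] M') (s : M →ₗ[R] M)
    (s' : M' →ₗ[R] M') (hs : Function.Injective s') (hD : ∀ x, D (s x) = s' (D x))
    (hf : Module.Finite R (M ⧸ LinearMap.range s)) :
    Module.Finite R (Qt ((LinearMap.ker D).map s) (LinearMap.ker D)) ∧
    Module.Finite R (Qt ((LinearMap.range D).map s') (LinearMap.range D)) ∧
    (EFn R).cl (M ⧸ LinearMap.range s) = qc ((LinearMap.ker D).map s) (LinearMap.ker D) +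
      qc ((LinearMap.range D).map s') (LinearMap.range D) := by
  let f : Qt ((LinearMap.ker D).map s) (LinearMap.ker D) →ₗ[R] (M ⧸ LinearMap.range s) :=
    Submodule.mapQ _ _ (LinearMap.ker D).subtype (by
      intro x hx
      obtain ⟨y, _, hy⟩ := hx
      exact ⟨y, hy⟩)
  let g : (M ⧸ LinearMap.range s) →ₗ[R] Qt ((LinearMap.range D).map s') (LinearMap.range D) :=
    Submodule.mapQ _ _ D.rangeRestrict (by
      rintro x ⟨y, rfl⟩
      exact ⟨D y, ⟨y, rfl⟩, (hD y).symm⟩)
  have hf1 : Function.Injective f := by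
    rw [injective_iff_map_eq_zero]
    intro a ha
    obtain ⟨a, rfl⟩ := Submodule.mkQ_surjective _ a
    change Submodule.Quotient.mk (a : M) = 0 at ha
    rw [Submodule.Quotient.mk_eq_zero] at ha
    obtain ⟨y, hy⟩ := ha
    change Submodule.Quotient.mk a = 0
    rw [Submodule.Quotient.mk_eq_zero]
    refine ⟨y, ?_, hy⟩
    have h1 : D (s y) = 0 := by rw [hy]; exact a.2
    rw [hD] at h1
    exact hs (by rw [h1, map_zero])
  have hg : Function.Surjective g := by
    intro b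
    obtain ⟨⟨_, x, rfl⟩, rfl⟩ := Submodule.mkQ_surjective _ b
    exact ⟨Submodule.Quotient.mk x, rfl⟩
  have hfg : Function.Exact f g := by
    intro b
    obtain ⟨b, rfl⟩ := Submodule.mkQ_surjective _ b
    constructor
    · intro hb
      change Submodule.Quotient.mk (D.rangeRestrict b) = 0 at hb
      rw [Submodule.Quotient.mk_eq_zero] at hb
      obtain ⟨_, ⟨y, rfl⟩, hy⟩ := hb
      have hy' : s' (D y) = D b := hy
      have hk : b - s y ∈ LinearMap.ker D := by
        rw [LinearMap.mem_ker, map_sub, hD, hy', sub_self]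
      refine ⟨Submodule.Quotient.mk ⟨b - s y, hk⟩, ?_⟩
      change Submodule.Quotient.mk (b - s y) = Submodule.Quotient.mk b
      rw [Submodule.Quotient.eq]
      exact ⟨-y, by rw [map_neg]; abel⟩
    · rintro ⟨a, ha⟩
      obtain ⟨a, rfl⟩ := Submodule.mkQ_surjective _ a
      rw [← ha]
      change Submodule.Quotient.mk (D.rangeRestrict (a : M)) = 0
      have : D.rangeRestrict (a : M) = 0 := Subtype.ext a.2
      rw [this, Submodule.Quotient.mk_zero]
  have i1 : Module.Finite R (Qt ((LinearMap.ker D).map s) (LinearMap.ker D)) :=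
    Module.Finite.of_injective f hf1
  have i2 : Module.Finite R (Qt ((LinearMap.range D).map s') (LinearMap.range D)) :=
    Module.Finite.of_surjective g hg
  refine ⟨i1, i2, ?_⟩
  rw [qc, qc, EFn_cl, EFn_cl, EFn_cl]
  exact cls_exact (R := R) f g hf1 hfg hg

/-- The complex with differential `(1 - t) d`. -/
def tw (E : Cx R) (t : ∀ n, E.M n →ₗ[R] E.M n)
    (ht : ∀ n x, E.d n (t (n + 1) x) = t n (E.d n x)) : Cx R where
  M := E.M
  d n := (LinearMap.id - t n) ∘ₗ E.d n
  dd n x := by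
    have h1 := E.dd n x
    have h2 := ht n (E.d (n + 1) x)
    simp only [LinearMap.comp_apply, LinearMap.sub_apply, LinearMap.id_apply, map_sub]
    rw [h2, h1]
    simp

/-- The whole module in every degree. -/
abbrev Tf (E : Cx R) : Fam E := fun _ => ⊤

/-- The zero module in every degree. -/
abbrev Of (E : Cx R) : Fam E := fun _ => ⊥

theorem zc_zero (E : Cx R) : Pool.Agent.H4.CU.Zc E (Tf E) (Of E) 0 = ⊤ := rfl

theorem zc_succ (E : Cx R) (n : ℕ) :
    Pool.Agent.H4.CU.Zc E (Tf E) (Of E) (n + 1) = LinearMap.ker (E.d n) := by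
  ext x
  rw [Pool.Agent.H4.CU.mem_zc_succ, LinearMap.mem_ker]
  simp

theorem bd_eq (E : Cx R) (n : ℕ) :
    Pool.Agent.H4.CU.Bd E (Tf E) (Of E) n = LinearMap.range (E.d n) := by
  ext x
  rw [Pool.Agent.H4.CU.mem_bd, LinearMap.mem_range]
  constructor
  · rintro ⟨b, _, a, ha, rfl⟩
    have h1 : a = 0 := ha
    exact ⟨b, by rw [h1, add_zero]⟩
  · rintro ⟨b, rfl⟩
    exact ⟨b, trivial, 0, rfl, by rw [add_zero]⟩

variable (E : Cx R) (t : ∀ n, E.M n →ₗ[R] E.M n)
    (ht : ∀ n x, E.d n (t (n + 1) x) = t n (E.d n x))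

/-- `1 - t`. -/
abbrev sm (n : ℕ) : E.M n →ₗ[R] E.M n := LinearMap.id - t n

include ht in
theorem d_sm (n : ℕ) (x : E.M (n + 1)) : E.d n (sm E t (n + 1) x) = sm E t n (E.d n x) := by
  simp only [sm, LinearMap.sub_apply, LinearMap.id_apply, map_sub, ht]

theorem sm_inj (hinj : ∀ n x, t n x = x → x = 0) (n : ℕ) : Function.Injective (sm E t n) := by
  rw [injective_iff_map_eq_zero]
  intro x hx
  rw [sm, LinearMap.sub_apply, LinearMap.id_apply, sub_eq_zero] at hx
  exact hinj n x hx.symm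

theorem zc_tw (hinj : ∀ n x, t n x = x → x = 0) (n : ℕ) :
    Pool.Agent.H4.CU.Zc (tw E t ht) (Tf (tw E t ht)) (Of (tw E t ht)) n =
      Pool.Agent.H4.CU.Zc E (Tf E) (Of E) n := by
  cases n with
  | zero => rfl
  | succ n =>
    rw [zc_succ, zc_succ]
    exact LinearMap.ker_comp_of_ker_eq_bot (E.d n)
      (LinearMap.ker_eq_bot.mpr (sm_inj E t hinj n))

theorem bd_tw (n : ℕ) :
    Pool.Agent.H4.CU.Bd (tw E t ht) (Tf (tw E t ht)) (Of (tw E t ht)) n =
      (Pool.Agent.H4.CU.Bd E (Tf E) (Of E) n).map (sm E t n) := by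
  rw [bd_eq, bd_eq]
  exact LinearMap.range_comp (E.d n) (sm E t n)

theorem bd_le_zc (n : ℕ) : Pool.Agent.H4.CU.Bd E (Tf E) (Of E) n ≤
    Pool.Agent.H4.CU.Zc E (Tf E) (Of E) n := by
  cases n with
  | zero => exact le_top
  | succ n =>
    rw [bd_eq, zc_succ]
    rintro _ ⟨y, rfl⟩
    exact E.dd n y

/-- the class of the full quotient -/
theorem qc_top {M : Type} [AddCommGroup M] [Module R M] (s : M →ₗ[R] M) :
    qc ((⊤ : Submodule R M).map s) ⊤ = (EFn R).cl (M ⧸ LinearMap.range s) ∧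
      (Module.Finite R (M ⧸ LinearMap.range s) →
        Module.Finite R (Qt ((⊤ : Submodule R M).map s) (⊤ : Submodule R M))) := by
  have e : Qt ((⊤ : Submodule R M).map s) (⊤ : Submodule R M) ≃ₗ[R] (M ⧸ LinearMap.range s) :=
    Submodule.Quotient.equiv _ _ (Submodule.topEquiv (R := R) (M := M)) (by
      ext y
      constructor
      · rintro ⟨x, ⟨z, _, hz⟩, rfl⟩
        exact ⟨z, hz⟩
      · rintro ⟨z, rfl⟩
        exact ⟨⟨s z, trivial⟩, ⟨z, trivial, rfl⟩, rfl⟩)
  exact ⟨(EFn R).iso _ _ e, fun h => Module.Finite.equiv e.symm⟩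

theorem cl_free (M : Type) [AddCommGroup M] [Module R M] [Module.Finite R M] [Module.Free R M] :
    (EFn R).cl M = 0 := by
  rw [EFn_cl]
  exact cls_free M

/-- All the classes of `B/(1-t)B` and `Z/(1-t)Z` vanish. -/
theorem all_zero (ht : ∀ n x, E.d n (t (n + 1) x) = t n (E.d n x))
    (hinj : ∀ n x, t n x = x → x = 0)
    (hq : ∀ n, Module.Finite R (E.M n ⧸ LinearMap.range (sm E t n)))
    (hq' : ∀ n, Module.Free R (E.M n ⧸ LinearMap.range (sm E t n)))
    (hsz : ∀ n, (Pool.Agent.H4.CU.Zc E (Tf E) (Of E) n).map (sm E t n) ≤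
      Pool.Agent.H4.CU.Bd E (Tf E) (Of E) n) (n : ℕ) :
    Module.Finite R (Qt ((Pool.Agent.H4.CU.Bd E (Tf E) (Of E) n).map (sm E t n))
      (Pool.Agent.H4.CU.Bd E (Tf E) (Of E) n)) ∧
    qc ((Pool.Agent.H4.CU.Bd E (Tf E) (Of E) n).map (sm E t n))
      (Pool.Agent.H4.CU.Bd E (Tf E) (Of E) n) = 0 := by
  induction n with
  | zero =>
    have hd := qc_diff (E.d 0) (sm E t 1) (sm E t 0) (sm_inj E t hinj 0)
      (fun x => d_sm E t ht 0 x) (hq 1)
    have hB : Module.Finite R (Qt ((Pool.Agent.H4.CU.Bd E (Tf E) (Of E) 0).map (sm E t 0))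
        (Pool.Agent.H4.CU.Bd E (Tf E) (Of E) 0)) := by
      rw [bd_eq]
      exact hd.2.1
    have hZ : Module.Finite R (Qt ((Pool.Agent.H4.CU.Zc E (Tf E) (Of E) 0).map (sm E t 0))
        (Pool.Agent.H4.CU.Zc E (Tf E) (Of E) 0)) := (qc_top (sm E t 0)).2 (hq 0)
    refine ⟨hB, ?_⟩
    rw [qc_key _ _ (sm E t 0) (sm_inj E t hinj 0) (bd_le_zc E 0) (hsz 0) hB hZ]
    have h1 := (qc_top (sm E t 0)).1
    have := hq 0
    have := hq' 0
    rw [cl_free] at h1
    exact h1
  | succ n ih =>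
    have hd := qc_diff (E.d (n + 1)) (sm E t (n + 2)) (sm E t (n + 1)) (sm_inj E t hinj (n + 1))
      (fun x => d_sm E t ht (n + 1) x) (hq (n + 2))
    have hd' := qc_diff (E.d n) (sm E t (n + 1)) (sm E t n) (sm_inj E t hinj n)
      (fun x => d_sm E t ht n x) (hq (n + 1))
    have hB : Module.Finite R (Qt ((Pool.Agent.H4.CU.Bd E (Tf E) (Of E) (n + 1)).map
        (sm E t (n + 1))) (Pool.Agent.H4.CU.Bd E (Tf E) (Of E) (n + 1))) := by
      rw [bd_eq]
      exact hd.2.1
    have hZ : Module.Finite R (Qt ((Pool.Agent.H4.CU.Zc E (Tf E) (Of E) (n + 1)).map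
        (sm E t (n + 1))) (Pool.Agent.H4.CU.Zc E (Tf E) (Of E) (n + 1))) := by
      rw [zc_succ]
      exact hd'.1
    refine ⟨hB, ?_⟩
    rw [qc_key _ _ (sm E t (n + 1)) (sm_inj E t hinj (n + 1)) (bd_le_zc E (n + 1)) (hsz (n + 1))
      hB hZ]
    have h2 := ih.2
    have h3 := hd'.2.2
    have := hq (n + 1)
    have := hq' (n + 1)
    rw [cl_free] at h3
    rw [bd_eq] at h2
    rw [h2, add_zero] at h3
    rw [zc_succ]
    exact h3.symm

/-- THE ALGEBRA OF STEP (3), general form. -/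
theorem w_ne_gen (ht : ∀ n x, E.d n (t (n + 1) x) = t n (E.d n x))
    (hinj : ∀ n x, t n x = x → x = 0)
    (hq : ∀ n, Module.Finite R (E.M n ⧸ LinearMap.range (LinearMap.id - t n)))
    (hq' : ∀ n, Module.Free R (E.M n ⧸ LinearMap.range (LinearMap.id - t n)))
    (m : ℕ) (h0 : ∀ k, k ≠ m → Pool.Agent.H4.CU.Zc E (Tf E) (Of E) k ≤
      Pool.Agent.H4.CU.Bd E (Tf E) (Of E) k)
    (Q : Type) [AddCommGroup Q] [Module R Q] [Module.Finite R Q] (hQ : cls (R := R) Q ≠ 0)
    (h1 : Nonempty (Hr E (Tf E) (Of E) m ≃ₗ[R] Q))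
    (h2 : ∀ x ∈ Pool.Agent.H4.CU.Zc E (Tf E) (Of E) m, x - t m x ∈
      Pool.Agent.H4.CU.Bd E (Tf E) (Of E) m) {w : K0t R}
    (hg : Good (EFn R) (fun k => Hr (tw E t ht) (Tf (tw E t ht)) (Of (tw E t ht)) k) w) : w ≠ 0 := by
  have hsz : ∀ n, (Pool.Agent.H4.CU.Zc E (Tf E) (Of E) n).map (sm E t n) ≤
      Pool.Agent.H4.CU.Bd E (Tf E) (Of E) n := by
    intro n
    by_cases hn : n = m
    · subst hn
      rintro _ ⟨x, hx, rfl⟩
      exact h2 x hx
    · rintro _ ⟨x, hx, rfl⟩
      have h3 := h0 n hn hx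
      rw [bd_eq] at h3 ⊢
      obtain ⟨y, rfl⟩ := h3
      exact ⟨sm E t (n + 1) y, d_sm E t ht n y⟩
  have hz := all_zero E t ht hinj hq hq' hsz
  obtain ⟨hfin, N, hN, hsum⟩ := hg
  -- the class of the homology
  have hcl : ∀ k, (EFn R).cl (Hr (tw E t ht) (Tf (tw E t ht)) (Of (tw E t ht)) k) =
      qc (Pool.Agent.H4.CU.Bd E (Tf E) (Of E) k) (Pool.Agent.H4.CU.Zc E (Tf E) (Of E) k) := by
    intro k
    have h30 := qc_congr (M := E.M k) (bd_tw E t ht k) (zc_tw E t ht hinj k)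
    have h3 : (EFn R).cl (Hr (tw E t ht) (Tf (tw E t ht)) (Of (tw E t ht)) k) =
        qc ((Pool.Agent.H4.CU.Bd E (Tf E) (Of E) k).map (sm E t k))
          (Pool.Agent.H4.CU.Zc E (Tf E) (Of E) k) := h30.1
    have h4 := h30.2 (hfin k)
    have h5 : (Pool.Agent.H4.CU.Bd E (Tf E) (Of E) k).map (sm E t k) ≤
        Pool.Agent.H4.CU.Bd E (Tf E) (Of E) k := (Submodule.map_mono (bd_le_zc E k)).trans (hsz k)
    have h6 := (qc_chain _ _ _ h5 (bd_le_zc E k) h4).2.2
    rw [h3, h6, (hz k).2, zero_add]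
  have hk : ∀ k, k ≠ m →
      (EFn R).cl (Hr (tw E t ht) (Tf (tw E t ht)) (Of (tw E t ht)) k) = 0 := by
    intro k hkm
    rw [hcl k]
    have hs : Subsingleton (Qt (Pool.Agent.H4.CU.Bd E (Tf E) (Of E) k)
        (Pool.Agent.H4.CU.Zc E (Tf E) (Of E) k)) := by
      rw [Submodule.Quotient.subsingleton_iff, eq_top_iff]
      intro x _
      exact h0 k hkm x.2
    have : Module.Free R (Qt (Pool.Agent.H4.CU.Bd E (Tf E) (Of E) k)
        (Pool.Agent.H4.CU.Zc E (Tf E) (Of E) k)) := Module.Free.of_subsingleton R _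
    exact cl_free _
  have hm : (EFn R).cl (Hr (tw E t ht) (Tf (tw E t ht)) (Of (tw E t ht)) m) =
      cls (R := R) Q := by
    rw [hcl m]
    obtain ⟨e⟩ := h1
    rw [← EFn_cl Q]
    exact (EFn R).iso _ _ e
  intro hw
  have h3 := hsum (max N (m + 1)) (le_max_left _ _)
  rw [Finset.sum_eq_single m] at h3
  · rw [hm, hw] at h3
    apply hQ
    rcases neg_one_pow_eq_or ℤ m with h4 | h4
    · rwa [h4, one_smul] at h3
    · rwa [h4, neg_smul, one_smul, neg_eq_zero] at h3
  · intro k _ hkm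
    rw [hk k hkm, smul_zero]
  · intro hmem
    exact absurd (Finset.mem_range.mpr (lt_of_lt_of_le (Nat.lt_succ_self m) (le_max_right N (m + 1))))
      hmem

end general

/-- The Euler function of `R23`. -/
def EF : EulerFn R23 (K0t R23) := EFn R23

/-- THE ALGEBRA OF STEP (3). -/
theorem w_ne (E : Cx R23) (t : ∀ n, E.M n →ₗ[R23] E.M n)
    (ht : ∀ n x, E.d n (t (n + 1) x) = t n (E.d n x))
    (hinj : ∀ n x, t n x = x → x = 0)
    (hq : ∀ n, Module.Finite R23 (E.M n ⧸ LinearMap.range (LinearMap.id - t n)))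
    (hq' : ∀ n, Module.Free R23 (E.M n ⧸ LinearMap.range (LinearMap.id - t n)))
    (m : ℕ) (h0 : ∀ k, k ≠ m → Pool.Agent.H4.CU.Zc E (Tf E) (Of E) k ≤
      Pool.Agent.H4.CU.Bd E (Tf E) (Of E) k)
    (h1 : Nonempty (Hr E (Tf E) (Of E) m ≃ₗ[R23] QR))
    (h2 : ∀ x ∈ Pool.Agent.H4.CU.Zc E (Tf E) (Of E) m, x - t m x ∈
      Pool.Agent.H4.CU.Bd E (Tf E) (Of E) m) {w : K0t R23}
    (hg : Good EF (fun k => Hr (tw E t ht) (Tf (tw E t ht)) (Of (tw E t ht)) k) w) : w ≠ 0 :=
  w_ne_gen E t ht hinj hq hq' m h0 QR cls_QR_ne h1 h2 hg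

end

end Pool.Agent.H37.CG
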